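import Pool.Agent.helper440_quartic.Form

/-!
# Sizes
-/

namespace Pool.Agent.helper440_quartic

/-- `|f| ≤ K M ^ n` for some constant `K` -/
def Bdd {ι : Type} (M : ι → ℤ) (n : ℕ) (f : ι → ℤ) : Prop :=
  ∃ K : ℤ, 0 ≤ K ∧ ∀ i, 0 ≤ M i ∧ |f i| ≤ K * M i ^ n

section
variable {ι : Type} {M : ι → ℤ} {n k l j : ℕ} {f g : ι → ℤ}

theorem Bdd.const (hM : ∀ i, 0 ≤ M i) (c : ℤ) : Bdd M 0 (fun _ => c) :=
  ⟨|c|, abs_nonneg _, fun i => ⟨hM i, by simp⟩⟩

theorem Bdd.add (hf : Bdd M n f) (hg : Bdd M n g) : Bdd M n (fun i => f i + g i) := by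
  obtain ⟨K, hK, h⟩ := hf
  obtain ⟨L, hL, h'⟩ := hg
  refine ⟨K + L, by positivity, fun i => ⟨(h i).1, ?_⟩⟩
  have h1 := (h i).2
  have h2 := (h' i).2
  calc |f i + g i| ≤ |f i| + |g i| := abs_add_le _ _
    _ ≤ (K + L) * M i ^ n := by linarith

theorem Bdd.neg (hf : Bdd M n f) : Bdd M n (fun i => -f i) := by
  obtain ⟨K, hK, h⟩ := hf
  exact ⟨K, hK, fun i => ⟨(h i).1, by rw [abs_neg]; exact (h i).2⟩⟩

theorem Bdd.sub (hf : Bdd M n f) (hg : Bdd M n g) : Bdd M n (fun i => f i - g i) := by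
  have := Bdd.add hf (Bdd.neg hg)
  simpa [sub_eq_add_neg] using this

theorem Bdd.mul (hf : Bdd M k f) (hg : Bdd M l g) (h : k + l = n) :
    Bdd M n (fun i => f i * g i) := by
  obtain ⟨K, hK, h1⟩ := hf
  obtain ⟨L, hL, h2⟩ := hg
  refine ⟨K * L, by positivity, fun i => ⟨(h1 i).1, ?_⟩⟩
  have h3 := (h1 i).1
  rw [abs_mul, ← h]
  calc |f i| * |g i| ≤ (K * M i ^ k) * (L * M i ^ l) :=
        mul_le_mul (h1 i).2 (h2 i).2 (abs_nonneg _) (by positivity)
    _ = _ := by rw [pow_add]; ring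

theorem Bdd.pow (hf : Bdd M k f) (h : k * j = n) : Bdd M n (fun i => f i ^ j) := by
  obtain ⟨K, hK, h1⟩ := hf
  refine ⟨K ^ j, by positivity, fun i => ⟨(h1 i).1, ?_⟩⟩
  rw [abs_pow, ← h, pow_mul, ← mul_pow]
  exact pow_le_pow_left₀ (abs_nonneg _) (h1 i).2 j

end

/-- two points of the curve and a bound for their coordinates -/
structure Data (a b c d e m : ℤ) where
  x₁ : ℤ
  y₁ : ℤ
  z₁ : ℤ
  x₂ : ℤ
  y₂ : ℤ
  z₂ : ℤ
  M : ℤ
  hx₁ : |x₁| ≤ M
  hy₁ : |y₁| ≤ M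
  hx₂ : |x₂| ≤ M
  hy₂ : |y₂| ≤ M
  h₁ : F a b c d e x₁ y₁ = m * z₁ ^ 2
  h₂ : F a b c d e x₂ y₂ = m * z₂ ^ 2

variable {a b c d e m : ℤ}

theorem Data.M0 (i : Data a b c d e m) : 0 ≤ i.M := (abs_nonneg _).trans i.hx₁

theorem bx₁ : Bdd (fun i : Data a b c d e m => i.M) 1 (fun i => i.x₁) :=
  ⟨1, by norm_num, fun i => ⟨i.M0, by simpa using i.hx₁⟩⟩
theorem by₁ : Bdd (fun i : Data a b c d e m => i.M) 1 (fun i => i.y₁) :=
  ⟨1, by norm_num, fun i => ⟨i.M0, by simpa using i.hy₁⟩⟩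
theorem bx₂ : Bdd (fun i : Data a b c d e m => i.M) 1 (fun i => i.x₂) :=
  ⟨1, by norm_num, fun i => ⟨i.M0, by simpa using i.hx₂⟩⟩
theorem by₂ : Bdd (fun i : Data a b c d e m => i.M) 1 (fun i => i.y₂) :=
  ⟨1, by norm_num, fun i => ⟨i.M0, by simpa using i.hy₂⟩⟩

theorem bF₁ : Bdd (fun i : Data a b c d e m => i.M) 4 (fun i => F a b c d e i.x₁ i.y₁) := by
  unfold F
  repeat (first | with_reducible exact Bdd.const Data.M0 _ | with_reducible exact bx₁ | with_reducible exact by₁ | with_reducible apply Bdd.add |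
    with_reducible apply Bdd.mul | with_reducible apply Bdd.pow | rfl)

theorem bF₂ : Bdd (fun i : Data a b c d e m => i.M) 4 (fun i => F a b c d e i.x₂ i.y₂) := by
  unfold F
  repeat (first | with_reducible exact Bdd.const Data.M0 _ | with_reducible exact bx₂ | with_reducible exact by₂ | with_reducible apply Bdd.add |
    with_reducible apply Bdd.mul | with_reducible apply Bdd.pow | rfl)

theorem of_sq (hm : m ≠ 0) {f z : Data a b c d e m → ℤ}
    (hf : Bdd (fun i : Data a b c d e m => i.M) 4 f) (h : ∀ i, f i = m * z i ^ 2) :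
    Bdd (fun i : Data a b c d e m => i.M) 2 z := by
  obtain ⟨K, hK, h1⟩ := hf
  refine ⟨1 + K, by linarith, fun i => ⟨i.M0, ?_⟩⟩
  have h2 := (h1 i).2
  have hM := i.M0
  rw [h i, abs_mul, abs_pow] at h2
  have h3 : 1 ≤ |m| := Int.one_le_abs hm
  have h4 : |z i| ^ 2 ≤ ((1 + K) * i.M ^ 2) ^ 2 := by
    calc |z i| ^ 2 ≤ |m| * |z i| ^ 2 := le_mul_of_one_le_left (by positivity) h3
      _ ≤ K * i.M ^ 4 := h2
      _ ≤ (1 + K) ^ 2 * i.M ^ 4 := by
          refine mul_le_mul_of_nonneg_right ?_ (by positivity)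
          nlinarith
      _ = _ := by ring
  exact (pow_le_pow_iff_left₀ (abs_nonneg _) (by positivity) (by norm_num)).1 h4

theorem bz₁ (hm : m ≠ 0) : Bdd (fun i : Data a b c d e m => i.M) 2 (fun i => i.z₁) :=
  of_sq hm bF₁ fun i => i.h₁
theorem bz₂ (hm : m ≠ 0) : Bdd (fun i : Data a b c d e m => i.M) 2 (fun i => i.z₂) :=
  of_sq hm bF₂ fun i => i.h₂

theorem bg₁ : Bdd (fun i : Data a b c d e m => i.M) 4
    (fun i => i.x₂ * Fx a b c d i.x₁ i.y₁ + i.y₂ * Fy b c d e i.x₁ i.y₁) := by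
  unfold Fx Fy
  repeat (first | with_reducible exact Bdd.const Data.M0 _ | with_reducible exact bx₁ | with_reducible exact by₁ | with_reducible exact bx₂ | with_reducible exact by₂ |
    with_reducible apply Bdd.add | with_reducible apply Bdd.mul | with_reducible apply Bdd.pow | rfl)

theorem bg₃ : Bdd (fun i : Data a b c d e m => i.M) 4
    (fun i => i.x₁ * Fx a b c d i.x₂ i.y₂ + i.y₁ * Fy b c d e i.x₂ i.y₂) := by
  unfold Fx Fy
  repeat (first | with_reducible exact Bdd.const Data.M0 _ | with_reducible exact bx₁ | with_reducible exact by₁ | with_reducible exact bx₂ | with_reducible exact by₂ |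
    with_reducible apply Bdd.add | with_reducible apply Bdd.mul | with_reducible apply Bdd.pow | rfl)

theorem bG2 : Bdd (fun i : Data a b c d e m => i.M) 4
    (fun i => G2 a b c d e i.x₁ i.y₁ i.x₂ i.y₂) := by
  unfold G2
  repeat (first | with_reducible exact Bdd.const Data.M0 _ | with_reducible exact bx₁ | with_reducible exact by₁ | with_reducible exact bx₂ | with_reducible exact by₂ |
    with_reducible apply Bdd.add | with_reducible apply Bdd.mul | with_reducible apply Bdd.pow | rfl)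

theorem bH : Bdd (fun i : Data a b c d e m => i.M) 4 (fun i => H a b c d e i.x₁ i.y₁) := by
  unfold H
  repeat (first | with_reducible exact Bdd.const Data.M0 _ | with_reducible exact bx₁ | with_reducible exact by₁ |
    with_reducible apply Bdd.add | with_reducible apply Bdd.sub | with_reducible apply Bdd.mul | with_reducible apply Bdd.pow | rfl)

theorem bT6 : Bdd (fun i : Data a b c d e m => i.M) 6 (fun i => T6 a b c d e i.x₁ i.y₁) := by
  unfold T6
  repeat (first | with_reducible exact Bdd.const Data.M0 _ | with_reducible exact bx₁ | with_reducible exact by₁ |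
    with_reducible apply Bdd.add | with_reducible apply Bdd.sub | with_reducible apply Bdd.mul | with_reducible apply Bdd.pow | rfl)

theorem bFx : Bdd (fun i : Data a b c d e m => i.M) 3 (fun i => Fx a b c d i.x₁ i.y₁) := by
  unfold Fx
  repeat (first | with_reducible exact Bdd.const Data.M0 _ | with_reducible exact bx₁ | with_reducible exact by₁ |
    with_reducible apply Bdd.add | with_reducible apply Bdd.sub | with_reducible apply Bdd.mul | with_reducible apply Bdd.pow | rfl)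

theorem bFy : Bdd (fun i : Data a b c d e m => i.M) 3 (fun i => Fy b c d e i.x₁ i.y₁) := by
  unfold Fy
  repeat (first | with_reducible exact Bdd.const Data.M0 _ | with_reducible exact bx₁ | with_reducible exact by₁ |
    with_reducible apply Bdd.add | with_reducible apply Bdd.sub | with_reducible apply Bdd.mul | with_reducible apply Bdd.pow | rfl)

theorem bs8 : Bdd (fun i : Data a b c d e m => i.M) 8 (fun i => s8 a b c d e i.x₁ i.y₁) := by
  unfold s8
  repeat (first | with_reducible exact bH | with_reducible exact bF₁ | with_reducible exact Bdd.const Data.M0 _ |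
    with_reducible apply Bdd.add | with_reducible apply Bdd.sub | with_reducible apply Bdd.mul | with_reducible apply Bdd.pow | rfl)

theorem bX : Bdd (fun i : Data a b c d e m => i.M) 9 (fun i => X a b c d e i.x₁ i.y₁) := by
  unfold X
  repeat (first | with_reducible exact bs8 | with_reducible exact bT6 | with_reducible exact bFy | with_reducible exact bx₁ | with_reducible exact Bdd.const Data.M0 _ |
    with_reducible apply Bdd.add | with_reducible apply Bdd.sub | with_reducible apply Bdd.mul | with_reducible apply Bdd.pow | rfl)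

theorem bY : Bdd (fun i : Data a b c d e m => i.M) 9 (fun i => Y a b c d e i.x₁ i.y₁) := by
  unfold Y
  repeat (first | with_reducible exact bs8 | with_reducible exact bT6 | with_reducible exact bFx | with_reducible exact by₁ | with_reducible exact Bdd.const Data.M0 _ |
    with_reducible apply Bdd.add | with_reducible apply Bdd.sub | with_reducible apply Bdd.mul | with_reducible apply Bdd.pow |
    with_reducible apply Bdd.neg | rfl)

theorem bS0 (hm : m ≠ 0) : Bdd (fun i : Data a b c d e m => i.M) 6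
    (fun i => S0 a b c d e i.x₁ i.y₁ i.z₁ i.x₂ i.y₂ i.z₂) := by
  unfold S0
  exact Bdd.sub (Bdd.mul (bz₁ hm) bg₃ rfl) (Bdd.mul (bz₂ hm) bg₁ rfl)

theorem bRho (hm : m ≠ 0) : Bdd (fun i : Data a b c d e m => i.M) 8
    (fun i => Rho a b c d e m i.x₁ i.y₁ i.z₁ i.x₂ i.y₂ i.z₂) := by
  unfold Rho
  refine Bdd.add (Bdd.sub (Bdd.pow bg₁ rfl) ?_) ?_
  · exact Bdd.mul (Bdd.mul (Bdd.const Data.M0 _) (Bdd.pow (bz₁ hm) rfl) rfl) bG2 rfl
  · exact Bdd.mul (Bdd.mul (Bdd.const Data.M0 _) (Bdd.pow (bz₁ hm) rfl) rfl) (bz₂ hm) rfl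

theorem bX3 (hm : m ≠ 0) : Bdd (fun i : Data a b c d e m => i.M) 9
    (fun i => 4 * m * i.z₁ * S0 a b c d e i.x₁ i.y₁ i.z₁ i.x₂ i.y₂ i.z₂ * i.x₁ +
        Rho a b c d e m i.x₁ i.y₁ i.z₁ i.x₂ i.y₂ i.z₂ * i.x₂) := by
  refine Bdd.add ?_ (Bdd.mul (bRho hm) bx₂ rfl)
  exact Bdd.mul (Bdd.mul (Bdd.mul (Bdd.const Data.M0 _) (bz₁ hm) rfl) (bS0 hm) rfl) bx₁ rfl

theorem bY3 (hm : m ≠ 0) : Bdd (fun i : Data a b c d e m => i.M) 9
    (fun i => 4 * m * i.z₁ * S0 a b c d e i.x₁ i.y₁ i.z₁ i.x₂ i.y₂ i.z₂ * i.y₁ +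
        Rho a b c d e m i.x₁ i.y₁ i.z₁ i.x₂ i.y₂ i.z₂ * i.y₂) := by
  refine Bdd.add ?_ (Bdd.mul (bRho hm) by₂ rfl)
  exact Bdd.mul (Bdd.mul (Bdd.mul (Bdd.const Data.M0 _) (bz₁ hm) rfl) (bS0 hm) rfl) by₁ rfl

/-- the bounds for the coordinates of `-(2 P + Q)` and `-3 P` -/
def Bound (a b c d e m K : ℤ) : Prop :=
  1 ≤ K ∧ ∀ x₁ y₁ z₁ x₂ y₂ z₂ M : ℤ, |x₁| ≤ M → |y₁| ≤ M → |x₂| ≤ M → |y₂| ≤ M →
    F a b c d e x₁ y₁ = m * z₁ ^ 2 → F a b c d e x₂ y₂ = m * z₂ ^ 2 →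
    |4 * m * z₁ * S0 a b c d e x₁ y₁ z₁ x₂ y₂ z₂ * x₁ +
      Rho a b c d e m x₁ y₁ z₁ x₂ y₂ z₂ * x₂| ≤ K * M ^ 9 ∧
    |4 * m * z₁ * S0 a b c d e x₁ y₁ z₁ x₂ y₂ z₂ * y₁ +
      Rho a b c d e m x₁ y₁ z₁ x₂ y₂ z₂ * y₂| ≤ K * M ^ 9 ∧
    |X a b c d e x₁ y₁| ≤ K * M ^ 9 ∧ |Y a b c d e x₁ y₁| ≤ K * M ^ 9

theorem exists_Bound (hm : m ≠ 0) : ∃ K : ℤ, Bound a b c d e m K := by
  obtain ⟨K₁, hK₁, h1⟩ := bX3 (a := a) (b := b) (c := c) (d := d) (e := e) hm
  obtain ⟨K₂, hK₂, h2⟩ := bY3 (a := a) (b := b) (c := c) (d := d) (e := e) hm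
  obtain ⟨K₃, hK₃, h3⟩ := bX (a := a) (b := b) (c := c) (d := d) (e := e) (m := m)
  obtain ⟨K₄, hK₄, h4⟩ := bY (a := a) (b := b) (c := c) (d := d) (e := e) (m := m)
  refine ⟨1 + K₁ + K₂ + K₃ + K₄, by linarith, ?_⟩
  intro x₁ y₁ z₁ x₂ y₂ z₂ M hx₁ hy₁ hx₂ hy₂ e₁ e₂
  set i : Data a b c d e m := ⟨x₁, y₁, z₁, x₂, y₂, z₂, M, hx₁, hy₁, hx₂, hy₂, e₁, e₂⟩ with hi
  have hM : 0 ≤ M := (abs_nonneg _).trans hx₁
  have hM9 : 0 ≤ M ^ 9 := by positivity
  refine ⟨(h1 i).2.trans ?_, (h2 i).2.trans ?_, (h3 i).2.trans ?_, (h4 i).2.trans ?_⟩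
  all_goals
    refine mul_le_mul_of_nonneg_right ?_ hM9
    linarith

end Pool.Agent.helper440_quartic
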