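import Pool.Agent.helper440_quartic.Ladder
import Pool.Agent.helper440_cubic2.Climb

/-!
# Multiplication by `p` with the ladder
-/

namespace Pool.Agent.helper440_quartic

open Pool.Agent.helper440_cubic2

variable {p : ℕ} [Fact p.Prime] {a b c d e m n K : ℤ}

theorem nondeg {s : ℕ} (hs : 1 ≤ s) {τ : ℤ_[p]} (hτ : (p : ℤ_[p]) ^ s ∣ τ)
    (hτ' : ¬ (p : ℤ_[p]) ^ (s + 1) ∣ τ) {β : ℤ} (hβ : ¬ (p : ℤ) ^ 2 ∣ β) :
    ¬ (p : ℤ_[p]) ^ (3 * s) ∣ (β : ℤ_[p]) * τ := by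
  intro h
  obtain ⟨u, hu⟩ := hτ
  have hpu : ¬ (p : ℤ_[p]) ∣ u := by
    rintro ⟨v, hv⟩
    apply hτ'
    rw [hu, hv, pow_succ]
    exact ⟨v, by ring⟩
  have h1 : (p : ℤ_[p]) ^ (s + 2) ∣ (β : ℤ_[p]) * τ := (pow_dvd_pow _ (by omega)).trans h
  have hp0 : (p : ℤ_[p]) ≠ 0 := PadicInt.prime_p.ne_zero
  have h2 : (p : ℤ_[p]) ^ s * p ^ 2 ∣ p ^ s * ((β : ℤ_[p]) * u) := by
    rw [← pow_add]
    have e1 : (p : ℤ_[p]) ^ s * ((β : ℤ_[p]) * u) = (β : ℤ_[p]) * τ := by rw [hu]; ring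
    rw [e1]; exact h1
  have h3 : (p : ℤ_[p]) ^ 2 ∣ (β : ℤ_[p]) * u :=
    (mul_dvd_mul_iff_left (pow_ne_zero s hp0)).1 h2
  have h4 := PadicInt.prime_p.pow_dvd_of_dvd_mul_right 2 hpu h3
  rw [PadicInt.pow_p_dvd_int_iff] at h4
  exact hβ h4

/-- the pair of points with the parameters `α τ` and `(α + 2) τ` -/
def St (p : ℕ) [Fact p.Prime] (a b c d e m n K : ℤ) (s : ℕ) (τ : ℤ_[p]) (N : ℤ) (j : ℕ) (α : ℤ) :
    Prop :=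
  Pt p a b c d e m n K (3 * s) (α * τ) (N ^ 9 ^ j) ∧
    Pt p a b c d e m n K (3 * s) ((α + 2) * τ) (N ^ 9 ^ j)

theorem St.four (hG : Good p a b c d e m n K) {s : ℕ} (hs : 1 ≤ s) {τ : ℤ_[p]} {N : ℤ} {j : ℕ}
    {α : ℤ} (hτ : (p : ℤ_[p]) ^ s ∣ τ) (hτ' : ¬ (p : ℤ_[p]) ^ (s + 1) ∣ τ)
    (h2 : ¬ (p : ℤ) ^ 2 ∣ 2) (hα : ¬ (p : ℤ) ^ 2 ∣ α) (hα2 : ¬ (p : ℤ) ^ 2 ∣ α + 2)
    (h : St p a b c d e m n K s τ N j α) :
    Pt p a b c d e m n K (3 * s) ((-3 * α - 6) * τ) (N ^ 9 ^ (j + 1)) ∧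
    Pt p a b c d e m n K (3 * s) ((-3 * α - 4) * τ) (N ^ 9 ^ (j + 1)) ∧
    Pt p a b c d e m n K (3 * s) ((-3 * α - 2) * τ) (N ^ 9 ^ (j + 1)) ∧
    Pt p a b c d e m n K (3 * s) ((-3 * α) * τ) (N ^ 9 ^ (j + 1)) := by
  obtain ⟨h3, h4⟩ := h
  have e0 : N ^ 9 ^ (j + 1) = (N ^ 9 ^ j) ^ 9 := by rw [← pow_mul, pow_succ]
  have d1 : (p : ℤ_[p]) ^ s ∣ α * τ := Dvd.dvd.mul_left hτ _
  have d2 : (p : ℤ_[p]) ^ s ∣ (α + 2) * τ := Dvd.dvd.mul_left hτ _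
  have n0 : ¬ (p : ℤ_[p]) ^ (3 * s) ∣ 2 * τ := by
    have := nondeg hs hτ hτ' h2
    push_cast at this
    exact this
  have n1 : ¬ (p : ℤ_[p]) ^ (3 * s) ∣ (α * τ - (α + 2) * τ) := by
    intro h
    apply n0
    have e1 : 2 * τ = -(α * τ - (α + 2) * τ) := by ring
    rw [e1]; exact (dvd_neg).2 h
  have n2 : ¬ (p : ℤ_[p]) ^ (3 * s) ∣ ((α + 2) * τ - α * τ) := by
    intro h
    apply n0
    have e1 : 2 * τ = (α + 2) * τ - α * τ := by ring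
    rw [e1]; exact h
  have n3 := nondeg hs hτ hτ' hα
  have n4 : ¬ (p : ℤ_[p]) ^ (3 * s) ∣ ((α : ℤ_[p]) + 2) * τ := by
    have := nondeg hs hτ hτ' hα2
    push_cast at this
    exact this
  have c1 := Pt.chord hG hs d1 d2 n1 n3 h3 h4
  have c2 := Pt.chord hG hs d2 d1 n2 n4 h4 h3
  have t1 := Pt.triple hG hs d1 h3
  have t2 := Pt.triple hG hs d2 h4
  have e1 : -(2 * (α * τ) + (α + 2) * τ) = (-3 * α - 2) * τ := by ring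
  have e2 : -(2 * ((α + 2) * τ) + α * τ) = (-3 * α - 4) * τ := by ring
  have e3 : -(3 * ((α : ℤ_[p]) * τ)) = (-3 * α) * τ := by ring
  have e4 : -(3 * (((α : ℤ_[p]) + 2) * τ)) = (-3 * α - 6) * τ := by ring
  rw [e1] at c1
  rw [e2] at c2
  rw [e3] at t1
  rw [e4] at t2
  rw [e0]
  exact ⟨t2, c2, c1, t1⟩

theorem St.steps (hG : Good p a b c d e m n K) {s : ℕ} (hs : 1 ≤ s) {τ : ℤ_[p]} {N : ℤ} {j : ℕ}
    {α : ℤ} (hτ : (p : ℤ_[p]) ^ s ∣ τ) (hτ' : ¬ (p : ℤ_[p]) ^ (s + 1) ∣ τ)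
    (h2 : ¬ (p : ℤ) ^ 2 ∣ 2) (hα : ¬ (p : ℤ) ^ 2 ∣ α) (hα2 : ¬ (p : ℤ) ^ 2 ∣ α + 2)
    (h : St p a b c d e m n K s τ N j α) {β : ℤ}
    (hβ : β = -3 * α - 6 ∨ β = -3 * α - 4 ∨ β = -3 * α - 2) :
    St p a b c d e m n K s τ N (j + 1) β := by
  obtain ⟨h1, h3, h4, h5⟩ := St.four hG hs hτ hτ' h2 hα hα2 h
  rcases hβ with rfl | rfl | rfl
  · refine ⟨?_, ?_⟩
    · push_cast; exact h1
    · push_cast
      have e : (-3 * (α : ℤ_[p]) - 6 + 2) * τ = (-3 * α - 4) * τ := by ring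
      rw [e]; exact h3
  · refine ⟨?_, ?_⟩
    · push_cast; exact h3
    · push_cast
      have e : (-3 * (α : ℤ_[p]) - 4 + 2) * τ = (-3 * α - 2) * τ := by ring
      rw [e]; exact h4
  · refine ⟨?_, ?_⟩
    · push_cast; exact h4
    · push_cast
      have e : (-3 * (α : ℤ_[p]) - 2 + 2) * τ = (-3 * α) * τ := by ring
      rw [e]; exact h5

theorem not_sq_dvd {p : ℕ} (hp : 5 ≤ p) {β : ℤ} (h0 : β ≠ 0) (h : |β| ≤ p + 2) :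
    ¬ (p : ℤ) ^ 2 ∣ β := by
  intro hd
  have h1 := Int.le_of_dvd (abs_pos.2 h0) ((dvd_abs _ _).2 hd)
  have h2 : (5 : ℤ) ≤ p := by exact_mod_cast hp
  nlinarith

theorem climb (hG : Good p a b c d e m n K) (hp : 5 ≤ p) {s : ℕ} (hs : 1 ≤ s) {τ : ℤ_[p]} {N : ℤ}
    (hτ : (p : ℤ_[p]) ^ s ∣ τ) (hτ' : ¬ (p : ℤ_[p]) ^ (s + 1) ∣ τ)
    (h : Pt p a b c d e m n K (3 * s) τ N) (k : ℕ) :
    ∀ v : ℤ, |2 * v| ≤ 3 ^ k - 1 → |2 * v| ≤ p + 1 →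
      St p a b c d e m n K s τ N k (2 * v - 1) := by
  have h2 : ¬ (p : ℤ) ^ 2 ∣ 2 := by
    refine not_sq_dvd hp (by norm_num) ?_
    have : (5 : ℤ) ≤ p := by exact_mod_cast hp
    rw [abs_of_nonneg (by norm_num)]; linarith
  induction k with
  | zero =>
    intro v hv hv'
    rw [pow_zero, abs_le] at hv
    have hv0 : v = 0 := by omega
    subst hv0
    refine ⟨?_, ?_⟩
    · have := h.neg
      push_cast
      simpa using this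
    · push_cast
      have e : ((-1 : ℤ_[p]) + 2) * τ = τ := by ring
      rw [e]
      simpa using h
  | succ k ih =>
    intro v hv hv'
    obtain ⟨u, hu⟩ : ∃ u : ℤ, v = -3 * u - 1 ∨ v = -3 * u ∨ v = -3 * u + 1 :=
      ⟨-((v + 1) / 3), by omega⟩
    obtain ⟨q, hq⟩ : ∃ q : ℤ, (3 : ℤ) ^ k = 2 * q + 1 := by
      have : Odd ((3 : ℤ) ^ k) := Odd.pow (by decide)
      exact this
    have hp5 : (5 : ℤ) ≤ p := by exact_mod_cast hp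
    rw [pow_succ, hq, abs_le] at hv
    rw [abs_le] at hv'
    obtain ⟨P, hP⟩ : ∃ P : ℤ, P = p := ⟨_, rfl⟩
    rw [← hP] at hv' hp5
    have hu1 : |2 * u| ≤ 3 ^ k - 1 := by
      rw [hq, abs_le]; constructor <;> omega
    have hu2 : |2 * u| ≤ P + 1 := by
      rw [abs_le]; constructor <;> omega
    have h3 := ih u hu1 (by rw [← hP]; exact hu2)
    rw [abs_le] at hu2
    refine St.steps hG hs hτ hτ' h2 (not_sq_dvd hp (by omega) ?_) (not_sq_dvd hp (by omega) ?_)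
      h3 ?_
    · rw [← hP, abs_le]; constructor <;> omega
    · rw [← hP, abs_le]; constructor <;> omega
    · rcases hu with hu | hu | hu
      · left; omega
      · right; left; omega
      · right; right; omega

/-- one block: multiplication by `p` -/
theorem block (hG : Good p a b c d e m n K) (hp : 5 ≤ p) {s : ℕ} (hs : 1 ≤ s) {τ : ℤ_[p]} {N : ℤ}
    (hτ : (p : ℤ_[p]) ^ s ∣ τ) (hτ' : ¬ (p : ℤ_[p]) ^ (s + 1) ∣ τ)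
    (h : Pt p a b c d e m n K (3 * s) τ N) {k : ℕ} (hk : p + 2 ≤ 3 ^ k) :
    ∃ τ' : ℤ_[p], (p : ℤ_[p]) ^ (s + 1) ∣ τ' ∧ ¬ (p : ℤ_[p]) ^ (s + 1 + 1) ∣ τ' ∧
      Pt p a b c d e m n K (3 * (s + 1)) τ' (N ^ 9 ^ k) := by
  have hkz : (p : ℤ) + 2 ≤ 3 ^ k := by exact_mod_cast hk
  have hodd : ∃ v : ℤ, (p : ℤ) = 2 * v - 1 := by
    have h1 : Odd p := (Fact.out : p.Prime).odd_of_ne_two (by omega)
    obtain ⟨q, hq⟩ := h1
    exact ⟨q + 1, by rw [hq]; push_cast; ring⟩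
  obtain ⟨v, hv⟩ := hodd
  have hp5 : (5 : ℤ) ≤ p := by exact_mod_cast hp
  have hst := climb hG hp hs hτ hτ' h k v (by rw [abs_le]; constructor <;> linarith)
    (by rw [abs_le]; constructor <;> linarith)
  rw [← hv] at hst
  obtain ⟨⟨x, y, z, h1, hy, ⟨X, T, hX, hT, hXn, hTτ⟩, hKx, hKy⟩, -⟩ := hst
  rw [Int.cast_natCast] at hTτ
  have hατ : (p : ℤ_[p]) ^ (s + 1) ∣ p * τ := by
    rw [pow_succ, mul_comm]
    exact mul_dvd_mul_left _ hτ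
  refine ⟨T, ?_, ?_, ?_⟩
  · have e : T = (T - p * τ) + p * τ := by ring
    rw [e]
    exact dvd_add ((pow_dvd_pow _ (by omega)).trans hTτ) hατ
  · intro h'
    apply hτ'
    have h2 : (p : ℤ_[p]) ^ (s + 1 + 1) ∣ p * τ := by
      have e : p * τ = T - (T - p * τ) := by ring
      rw [e]
      exact dvd_sub h' ((pow_dvd_pow _ (by omega)).trans hTτ)
    have hp0 : (p : ℤ_[p]) ≠ 0 := PadicInt.prime_p.ne_zero
    rw [pow_succ, mul_comm] at h2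
    exact (mul_dvd_mul_iff_left hp0).1 h2
  · refine ⟨x, y, z, h1, hy, ⟨X, T, hX, hT, hXn, ?_⟩, hKx, hKy⟩
    rw [sub_self]; exact dvd_zero _

theorem blocks (hG : Good p a b c d e m n K) (hp : 5 ≤ p) {s : ℕ} (hs : 1 ≤ s) {τ : ℤ_[p]} {N : ℤ}
    (hτ : (p : ℤ_[p]) ^ s ∣ τ) (hτ' : ¬ (p : ℤ_[p]) ^ (s + 1) ∣ τ)
    (h : Pt p a b c d e m n K (3 * s) τ N) {k : ℕ} (hk : p + 2 ≤ 3 ^ k) (i : ℕ) :
    ∃ τ' : ℤ_[p], (p : ℤ_[p]) ^ (s + i) ∣ τ' ∧ ¬ (p : ℤ_[p]) ^ (s + i + 1) ∣ τ' ∧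
      Pt p a b c d e m n K (3 * (s + i)) τ' (N ^ (9 ^ k) ^ i) := by
  induction i with
  | zero => exact ⟨τ, by simpa using hτ, by simpa using hτ', by simpa using h⟩
  | succ i ih =>
    obtain ⟨τ₁, h1, h2, h3⟩ := ih
    obtain ⟨τ₂, h4, h5, h6⟩ := block hG hp (by omega) h1 h2 h3 hk
    refine ⟨τ₂, h4, h5, ?_⟩
    have e : (N ^ (9 ^ k) ^ i) ^ 9 ^ k = N ^ (9 ^ k) ^ (i + 1) := by
      rw [← pow_mul, ← pow_succ]
    rw [e] at h6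
    exact h6

end Pool.Agent.helper440_quartic
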