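import Mathlib

/-!
# Binary quartic forms and the curve `F (x, y) = m z²`
-/

namespace Pool.Agent.helper440_quartic

variable (a b c d e : ℤ)

/-- the quartic form -/
def F (x y : ℤ) : ℤ := a * x ^ 4 + b * x ^ 3 * y + c * x ^ 2 * y ^ 2 + d * x * y ^ 3 + e * y ^ 4
def Fx (x y : ℤ) : ℤ := 4 * a * x ^ 3 + 3 * b * x ^ 2 * y + 2 * c * x * y ^ 2 + d * y ^ 3
def Fy (x y : ℤ) : ℤ := b * x ^ 3 + 2 * c * x ^ 2 * y + 3 * d * x * y ^ 2 + 4 * e * y ^ 3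
def G2 (x y p q : ℤ) : ℤ := 6 * a * x ^ 2 * p ^ 2 + 3 * b * (x ^ 2 * p * q + x * y * p ^ 2) +
  c * (x ^ 2 * q ^ 2 + 4 * x * y * p * q + y ^ 2 * p ^ 2) +
  3 * d * (y ^ 2 * p * q + x * y * q ^ 2) + 6 * e * y ^ 2 * q ^ 2

/-- the invariant of degree two -/
def I2 : ℤ := 12 * a * e - 3 * b * d + c ^ 2

/-- the quartic covariant -/
def H (x y : ℤ) : ℤ := (8 * a * c - 3 * b ^ 2) * x ^ 4 + (24 * a * d - 4 * b * c) * x ^ 3 * y +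
  (48 * a * e + 6 * b * d - 4 * c ^ 2) * x ^ 2 * y ^ 2 + (24 * b * e - 4 * c * d) * x * y ^ 3 +
  (8 * c * e - 3 * d ^ 2) * y ^ 4

/-- the sextic covariant -/
def T6 (x y : ℤ) : ℤ := (b ^ 3 + 8 * a ^ 2 * d - 4 * a * b * c) * x ^ 6 +
  2 * (16 * a ^ 2 * e + 2 * a * b * d - 4 * a * c ^ 2 + b ^ 2 * c) * x ^ 5 * y +
  5 * (8 * a * b * e + b ^ 2 * d - 4 * a * c * d) * x ^ 4 * y ^ 2 +
  20 * (b ^ 2 * e - a * d ^ 2) * x ^ 3 * y ^ 3 -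
  5 * (8 * a * d * e + b * d ^ 2 - 4 * b * c * e) * x ^ 2 * y ^ 4 -
  2 * (16 * a * e ^ 2 + 2 * b * d * e - 4 * c ^ 2 * e + c * d ^ 2) * x * y ^ 5 -
  (d ^ 3 + 8 * b * e ^ 2 - 4 * c * d * e) * y ^ 6

theorem taylor (s t x y p q : ℤ) : F a b c d e (s * x + t * p) (s * y + t * q) =
    s ^ 4 * F a b c d e x y + s ^ 3 * t * (p * Fx a b c d x y + q * Fy b c d e x y) +
    s ^ 2 * t ^ 2 * G2 a b c d e x y p q +
    s * t ^ 3 * (x * Fx a b c d p q + y * Fy b c d e p q) + t ^ 4 * F a b c d e p q := by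
  unfold F Fx Fy G2; ring

theorem k2 (x y : ℤ) : G2 a b c d e x y (Fy b c d e x y) (-Fx a b c d x y) =
    2 * H a b c d e x y * F a b c d e x y := by
  unfold G2 H F Fx Fy; ring

theorem k3 (x y : ℤ) : x * Fx a b c d (Fy b c d e x y) (-Fx a b c d x y) +
    y * Fy b c d e (Fy b c d e x y) (-Fx a b c d x y) =
    -8 * T6 a b c d e x y * F a b c d e x y := by
  unfold T6 F Fx Fy; ring

theorem k4 (x y : ℤ) : 3 * F a b c d e (Fy b c d e x y) (-Fx a b c d x y) =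
    F a b c d e x y * (-H a b c d e x y ^ 2 + 64 * I2 a b c d e * F a b c d e x y ^ 2) := by
  unfold H I2 F Fx Fy; ring

def s8 (x y : ℤ) : ℤ := H a b c d e x y ^ 2 - 16 * I2 a b c d e * F a b c d e x y ^ 2
def X (x y : ℤ) : ℤ := s8 a b c d e x y * x + -6 * T6 a b c d e x y * Fy b c d e x y
def Y (x y : ℤ) : ℤ := s8 a b c d e x y * y + -6 * T6 a b c d e x y * -Fx a b c d x y
def Z (x y : ℤ) : ℤ := s8 a b c d e x y ^ 2 + 36 * H a b c d e x y * T6 a b c d e x y ^ 2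

/-- multiplication by `-3` -/
theorem triple (x y : ℤ) : F a b c d e (X a b c d e x y) (Y a b c d e x y) =
    F a b c d e x y * Z a b c d e x y ^ 2 := by
  have h1 := taylor a b c d e (s8 a b c d e x y) (-6 * T6 a b c d e x y) x y (Fy b c d e x y)
    (-Fx a b c d x y)
  have h2 := k2 a b c d e x y
  have h3 := k3 a b c d e x y
  have h4 := k4 a b c d e x y
  have e1 : s8 a b c d e x y = H a b c d e x y ^ 2 - 16 * I2 a b c d e * F a b c d e x y ^ 2 := rfl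
  unfold X Y Z
  rw [h1, h2, h3]
  set f := F a b c d e x y
  set T := T6 a b c d e x y
  set Hh := H a b c d e x y
  set s := s8 a b c d e x y
  set v4 := F a b c d e (Fy b c d e x y) (-Fx a b c d x y)
  set i := I2 a b c d e
  have h5 : 3 * (s ^ 4 * f + s ^ 3 * (-6 * T) *
      (Fy b c d e x y * Fx a b c d x y + -Fx a b c d x y * Fy b c d e x y) +
      s ^ 2 * (-6 * T) ^ 2 * (2 * Hh * f) + s * (-6 * T) ^ 3 * (-8 * T * f) + (-6 * T) ^ 4 * v4) =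
      3 * (f * (s ^ 2 + 36 * Hh * T ^ 2) ^ 2) := by
    linear_combination (1296 * T ^ 4) * h4 + (5184 * T ^ 4 * f) * e1
  exact mul_left_cancel₀ (by norm_num) h5

/-- the coefficients for the parabola tangent at the first point and through the second -/
def S0 (x₁ y₁ z₁ x₂ y₂ z₂ : ℤ) : ℤ :=
  z₁ * (x₁ * Fx a b c d x₂ y₂ + y₁ * Fy b c d e x₂ y₂) -
    z₂ * (x₂ * Fx a b c d x₁ y₁ + y₂ * Fy b c d e x₁ y₁)
def Rho (m x₁ y₁ z₁ x₂ y₂ z₂ : ℤ) : ℤ :=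
  (x₂ * Fx a b c d x₁ y₁ + y₂ * Fy b c d e x₁ y₁) ^ 2 -
    4 * m * z₁ ^ 2 * G2 a b c d e x₁ y₁ x₂ y₂ + 8 * m ^ 2 * z₁ ^ 3 * z₂
def Z3 (m x₁ y₁ z₁ x₂ y₂ z₂ : ℤ) : ℤ :=
  16 * m ^ 2 * z₁ ^ 3 * S0 a b c d e x₁ y₁ z₁ x₂ y₂ z₂ ^ 2 +
    2 * (x₂ * Fx a b c d x₁ y₁ + y₂ * Fy b c d e x₁ y₁) * S0 a b c d e x₁ y₁ z₁ x₂ y₂ z₂ *
      Rho a b c d e m x₁ y₁ z₁ x₂ y₂ z₂ + z₂ * Rho a b c d e m x₁ y₁ z₁ x₂ y₂ z₂ ^ 2

theorem chord_on {m x₁ y₁ z₁ x₂ y₂ z₂ : ℤ} (h₁ : F a b c d e x₁ y₁ = m * z₁ ^ 2)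
    (h₂ : F a b c d e x₂ y₂ = m * z₂ ^ 2) :
    F a b c d e (4 * m * z₁ * S0 a b c d e x₁ y₁ z₁ x₂ y₂ z₂ * x₁ +
        Rho a b c d e m x₁ y₁ z₁ x₂ y₂ z₂ * x₂)
      (4 * m * z₁ * S0 a b c d e x₁ y₁ z₁ x₂ y₂ z₂ * y₁ +
        Rho a b c d e m x₁ y₁ z₁ x₂ y₂ z₂ * y₂) =
    m * Z3 a b c d e m x₁ y₁ z₁ x₂ y₂ z₂ ^ 2 := by
  rw [taylor, h₁, h₂]
  have e1 : S0 a b c d e x₁ y₁ z₁ x₂ y₂ z₂ = z₁ * (x₁ * Fx a b c d x₂ y₂ + y₁ * Fy b c d e x₂ y₂) -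
    z₂ * (x₂ * Fx a b c d x₁ y₁ + y₂ * Fy b c d e x₁ y₁) := rfl
  have e2 : Rho a b c d e m x₁ y₁ z₁ x₂ y₂ z₂ =
    (x₂ * Fx a b c d x₁ y₁ + y₂ * Fy b c d e x₁ y₁) ^ 2 -
    4 * m * z₁ ^ 2 * G2 a b c d e x₁ y₁ x₂ y₂ + 8 * m ^ 2 * z₁ ^ 3 * z₂ := rfl
  unfold Z3
  set s := S0 a b c d e x₁ y₁ z₁ x₂ y₂ z₂
  set ρ := Rho a b c d e m x₁ y₁ z₁ x₂ y₂ z₂
  set g1 := x₂ * Fx a b c d x₁ y₁ + y₂ * Fy b c d e x₁ y₁
  set g3 := x₁ * Fx a b c d x₂ y₂ + y₁ * Fy b c d e x₂ y₂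
  set g2 := G2 a b c d e x₁ y₁ x₂ y₂
  linear_combination (-4 * m * s * ρ ^ 3) * e1 + (4 * m * s ^ 2 * ρ ^ 2) * e2

end Pool.Agent.helper440_quartic
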