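import Pool.Agent.helper440_cubic2.Chord
import Pool.Agent.helper440_quartic.Form

/-!
# The point `-(2 P + Q)` in affine coordinates
-/

namespace Pool.Agent.helper440_quartic

open Pool.Agent.helper440_cubic2

theorem coreb {R : Type*} [CommRing R] {μ τ T f₁ f₂ f₃ f₄ g w A : R}
    (hw : w = μ * τ * (2 * T + τ))
    (hg : g = f₁ + w * f₂ + w ^ 2 * f₃ + w ^ 3 * f₄)
    (hA : A = f₁ - 2 * μ * T * (2 * T + τ) * (f₂ + f₃ * w + f₄ * w ^ 2)) :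
    (2 * T + τ) * f₁ - τ * A = 2 * g * T := by
  rw [hA, hg]
  linear_combination (-2 * T * (f₂ + w * f₃ + w ^ 2 * f₄)) * hw

theorem corea {R : Type*} [CommRing R] {μ τ T f₁ f₂ f₃ f₄ g w A : R}
    (hw : w = μ * τ * (2 * T + τ))
    (hg : g = f₁ + w * f₂ + w ^ 2 * f₃ + w ^ 3 * f₄)
    (hA : A = f₁ - 2 * μ * T * (2 * T + τ) * (f₂ + f₃ * w + f₄ * w ^ 2)) :
    g = A + μ * (2 * T + τ) ^ 2 * (f₂ + f₃ * w + f₄ * w ^ 2) := by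
  rw [hA, hg]
  linear_combination (f₂ + w * f₃ + w ^ 2 * f₄) * hw

theorem core1 {R : Type*} [CommRing R] {m μ τ T f₁ f₂ f₃ f₄ g w A D : R}
    (hm : m = μ * g) (hw : w = μ * τ * (2 * T + τ))
    (hg : g = f₁ + w * f₂ + w ^ 2 * f₃ + w ^ 3 * f₄)
    (hA : A = f₁ - 2 * μ * T * (2 * T + τ) * (f₂ + f₃ * w + f₄ * w ^ 2))
    (hD : D = A ^ 2 - 4 * m * μ ^ 2 * T ^ 2 * (2 * T + τ) ^ 4 * f₄) :
    4 * m * T * (T * (4 * m * T ^ 2 + 3 * w * f₁ + 2 * w ^ 2 * f₂ + w ^ 3 * f₃) -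
        (T + τ) * (4 * m * T ^ 2 + w * f₁)) +
      ((4 * m * T ^ 2 + w * f₁) ^ 2 - 4 * m * T ^ 2 * (6 * m * T ^ 2 + 3 * w * f₁ + w ^ 2 * f₂) +
        8 * m ^ 2 * T ^ 3 * (T + τ)) = μ ^ 2 * τ ^ 4 * D := by
  have hb := coreb hw hg hA
  have h1 : 4 * m * T * (T * (4 * m * T ^ 2 + 3 * w * f₁ + 2 * w ^ 2 * f₂ + w ^ 3 * f₃) -
        (T + τ) * (4 * m * T ^ 2 + w * f₁)) +
      ((4 * m * T ^ 2 + w * f₁) ^ 2 - 4 * m * T ^ 2 * (6 * m * T ^ 2 + 3 * w * f₁ + w ^ 2 * f₂) +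
        8 * m ^ 2 * T ^ 3 * (T + τ)) =
      w ^ 2 * f₁ ^ 2 + 4 * m * T ^ 2 * w * g - 4 * m * T ^ 2 * w ^ 4 * f₄ -
        4 * m * T * τ * (2 * m * T ^ 2 + w * f₁) := by
    rw [hg]; ring
  rw [h1, hD]
  have h2 : w ^ 2 * f₁ ^ 2 + 4 * m * T ^ 2 * w * g - 4 * m * T * τ * (2 * m * T ^ 2 + w * f₁) =
      μ ^ 2 * τ ^ 4 * A ^ 2 := by
    rw [hw, hm]
    linear_combination (μ ^ 2 * τ ^ 2 * ((2 * T + τ) * f₁ - 2 * g * T + τ * A)) * hb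
  have h3 : 4 * m * T ^ 2 * w ^ 4 * f₄ =
      μ ^ 2 * τ ^ 4 * (4 * m * μ ^ 2 * T ^ 2 * (2 * T + τ) ^ 4 * f₄) := by
    rw [hw]; ring
  linear_combination h2 - h3

theorem core2 {R : Type*} [CommRing R] {m μ τ T f₁ f₂ f₃ f₄ g w A D : R}
    (hm : m = μ * g) (hw : w = μ * τ * (2 * T + τ))
    (hg : g = f₁ + w * f₂ + w ^ 2 * f₃ + w ^ 3 * f₄)
    (hA : A = f₁ - 2 * μ * T * (2 * T + τ) * (f₂ + f₃ * w + f₄ * w ^ 2))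
    (hD : D = A ^ 2 - 4 * m * μ ^ 2 * T ^ 2 * (2 * T + τ) ^ 4 * f₄) :
    (4 * m * T ^ 2 + w * f₁) ^ 2 - 4 * m * T ^ 2 * (6 * m * T ^ 2 + 3 * w * f₁ + w ^ 2 * f₂) +
        8 * m ^ 2 * T ^ 3 * (T + τ) =
      μ ^ 2 * τ ^ 3 * (-τ * D + 2 * f₁ * A * (2 * T + τ) +
        4 * m * μ * T ^ 2 * (2 * T + τ) ^ 3 * f₃) := by
  have hb := coreb hw hg hA
  have ha := corea hw hg hA
  have h1 : (4 * m * T ^ 2 + w * f₁) ^ 2 -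
      4 * m * T ^ 2 * (6 * m * T ^ 2 + 3 * w * f₁ + w ^ 2 * f₂) + 8 * m ^ 2 * T ^ 3 * (T + τ) =
      8 * m ^ 2 * T ^ 3 * τ - 4 * m * T ^ 2 * f₁ * w + w ^ 2 * (f₁ ^ 2 - 4 * m * T ^ 2 * f₂) := by
    ring
  have h2 : μ ^ 2 * τ ^ 3 * (-τ * D + 2 * f₁ * A * (2 * T + τ) +
        4 * m * μ * T ^ 2 * (2 * T + τ) ^ 3 * f₃) =
      w ^ 2 * (f₁ ^ 2 - 4 * m * T ^ 2 * f₂) - μ ^ 2 * τ ^ 2 * (((2 * T + τ) * f₁ - τ * A) ^ 2 -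
        4 * m * T ^ 2 * (2 * T + τ) ^ 2 * (f₂ + f₃ * w + f₄ * w ^ 2)) := by
    rw [hD, hw]; ring
  rw [h1, h2]
  have h3 : 8 * m ^ 2 * T ^ 3 * τ - 4 * m * T ^ 2 * f₁ * w +
      μ ^ 2 * τ ^ 2 * (((2 * T + τ) * f₁ - τ * A) ^ 2 -
        4 * m * T ^ 2 * (2 * T + τ) ^ 2 * (f₂ + f₃ * w + f₄ * w ^ 2)) = 0 := by
    set γ := f₂ + f₃ * w + f₄ * w ^ 2
    rw [hm]
    have e1 : 4 * (μ * g) * T ^ 2 * f₁ * w = 4 * (μ * g) * T ^ 2 * f₁ * (μ * τ * (2 * T + τ)) := by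
      rw [← hw]
    rw [e1]
    linear_combination (μ ^ 2 * τ ^ 2 * ((2 * T + τ) * f₁ - τ * A + 2 * g * T)) * hb -
      (4 * μ ^ 2 * τ * g * T ^ 2) * hb + (4 * μ ^ 2 * τ ^ 2 * g * T ^ 2) * ha
  linear_combination h3

theorem core3 {R : Type*} [CommRing R] {m μ τ T f₁ f₂ f₃ f₄ g w A D : R}
    (hw : w = μ * τ * (2 * T + τ))
    (hg : g = f₁ + w * f₂ + w ^ 2 * f₃ + w ^ 3 * f₄)
    (hA : A = f₁ - 2 * μ * T * (2 * T + τ) * (f₂ + f₃ * w + f₄ * w ^ 2))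
    (hD : D = A ^ 2 - 4 * m * μ ^ 2 * T ^ 2 * (2 * T + τ) ^ 4 * f₄) :
    f₁ * (2 * T + τ) * D - A * (-τ * D + 2 * f₁ * A * (2 * T + τ) +
        4 * m * μ * T ^ 2 * (2 * T + τ) ^ 3 * f₃) =
      T * (-2 * g * A ^ 2 - 4 * m * μ * T * (2 * T + τ) ^ 3 *
        (μ * (2 * T + τ) * f₄ * (f₁ * (2 * T + τ) + τ * A) + f₃ * A)) := by
  have hb := coreb hw hg hA
  rw [hD]
  linear_combination (-A ^ 2) * hb

/-- the third coordinate -/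
theorem core4 {R : Type*} [CommRing R] {m μ τ T f₁ w A Y v U T₃ g g1 s0 ρ : R}
    (hm : m = μ * g) (hw : w = μ * τ * (2 * T + τ)) (hg1 : g1 = 4 * m * T ^ 2 + w * f₁)
    (hY : 4 * m * T * s0 + ρ = Y) (hρ : τ * ρ = v * Y)
    (hU : f₁ * (2 * T + τ) - A * v = T * U) (hb : (2 * T + τ) * f₁ - τ * A = 2 * g * T)
    (hT : 2 * g * T₃ = 2 * g * T + v * U) :
    (2 * m * T * τ ^ 2) * (16 * m ^ 2 * T ^ 3 * s0 ^ 2 + 2 * g1 * s0 * ρ + (T + τ) * ρ ^ 2) =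
      (2 * m * T * τ ^ 2) * (T₃ * Y ^ 2) := by
  have h1 : τ * (4 * m * T * s0) = (τ - v) * Y := by linear_combination τ * hY - hρ
  have h2 : (2 * m * T * τ ^ 2) * (16 * m ^ 2 * T ^ 3 * s0 ^ 2 + 2 * g1 * s0 * ρ +
      (T + τ) * ρ ^ 2) = 2 * m * T ^ 2 * (τ * (4 * m * T * s0)) ^ 2 +
      g1 * (τ * (4 * m * T * s0)) * (τ * ρ) + 2 * m * T * (T + τ) * (τ * ρ) ^ 2 := by ring
  rw [h2, h1, hρ, hg1, hw]
  have h3 : 2 * m * T ^ 2 * ((τ - v) * Y) ^ 2 +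
      (4 * m * T ^ 2 + μ * τ * (2 * T + τ) * f₁) * ((τ - v) * Y) * (v * Y) +
      2 * m * T * (T + τ) * (v * Y) ^ 2 =
      Y ^ 2 * (2 * m * T ^ 2 * τ ^ 2 + μ * τ ^ 2 * (2 * T + τ) * f₁ * v +
        τ * v ^ 2 * (2 * m * T - μ * (2 * T + τ) * f₁)) := by ring
  rw [h3]
  have h4 : 2 * m * T - μ * (2 * T + τ) * f₁ = -(μ * τ * A) := by
    rw [hm]; linear_combination (-μ) * hb
  rw [h4]
  have h5 : m * (2 * T₃) = m * (2 * T) + μ * (v * U) := by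
    rw [hm]; linear_combination μ * hT
  linear_combination (Y ^ 2 * τ ^ 2 * μ * v) * hU - (Y ^ 2 * τ ^ 2 * T) * h5

end Pool.Agent.helper440_quartic
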