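import Pool.Agent.helper440_quartic.Form

/-!
# Primes for which the quartic form has a simple zero
-/

namespace Pool.Agent.helper440_quartic

variable {a b c d e : ℤ}

/-- the invariant of degree three; `4 I³ - J²` is `27` times the discriminant -/
def J3 (a b c d e : ℤ) : ℤ :=
  72 * a * c * e + 9 * b * c * d - 27 * a * d ^ 2 - 27 * e * b ^ 2 - 2 * c ^ 3

/-- arbitrarily large primes divide a value of `F (x, 1)` -/
theorem exists_prime (hdisc : 4 * I2 a b c d e ^ 3 - J3 a b c d e ^ 2 ≠ 0) (N : ℕ) :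
    ∃ p : ℕ, p.Prime ∧ N < p ∧
      ∃ n : ℤ, (p : ℤ) ∣ a * n ^ 4 + b * n ^ 3 + c * n ^ 2 + d * n + e := by
  by_cases he : e = 0
  · obtain ⟨p, hp1, hp2⟩ := Nat.exists_infinite_primes (N + 1)
    refine ⟨p, hp2, by omega, 0, ?_⟩
    rw [he]; simp
  · obtain ⟨L, hL⟩ : ∃ L : ℤ, L = 3 * (N.factorial : ℤ) := ⟨_, rfl⟩
    have hfac : (0 : ℤ) < (N.factorial : ℤ) := by exact_mod_cast N.factorial_pos
    have hL3 : 3 ≤ L := by omega
    obtain ⟨Q, hQ⟩ : ∃ Q : ℤ → ℤ, ∀ t, Q t = 1 + L * (t * (d + c * e * L * t +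
        b * e ^ 2 * L ^ 2 * t ^ 2 + a * e ^ 3 * L ^ 3 * t ^ 3)) := ⟨_, fun t => rfl⟩
    have hval : ∀ t : ℤ, a * (e * L * t) ^ 4 + b * (e * L * t) ^ 3 + c * (e * L * t) ^ 2 +
        d * (e * L * t) + e = e * Q t := by intro t; rw [hQ]; ring
    obtain ⟨t, ht⟩ : ∃ t : ℤ, (Q t).natAbs ≠ 1 := by
      by_contra hall
      push Not at hall
      have key : ∀ t : ℤ, t ≠ 0 → d + c * e * L * t + b * e ^ 2 * L ^ 2 * t ^ 2 +
          a * e ^ 3 * L ^ 3 * t ^ 3 = 0 := by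
        intro t ht0
        have h1 := hall t
        have h2 : Q t = 1 ∨ Q t = -1 := by omega
        have h3 := hQ t
        obtain ⟨w, hw⟩ : ∃ w : ℤ, w = t * (d + c * e * L * t + b * e ^ 2 * L ^ 2 * t ^ 2 +
          a * e ^ 3 * L ^ 3 * t ^ 3) := ⟨_, rfl⟩
        rw [← hw] at h3
        have h4 : w = 0 := by
          rcases h2 with h2 | h2
          · have : L * w = 0 := by linarith
            rcases mul_eq_zero.1 this with h | h
            · omega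
            · exact h
          · exfalso
            have h5 : L * w = -2 := by linarith
            have h6 : L ∣ -2 := ⟨w, h5.symm⟩
            have h7 : L ∣ 2 := (dvd_neg).1 h6
            have h8 := Int.le_of_dvd (by norm_num) h7
            omega
        rw [hw] at h4
        exact (mul_eq_zero.1 h4).resolve_left ht0
      have k1 := key 1 (by norm_num)
      have k2 := key 2 (by norm_num)
      have k3 := key 3 (by norm_num)
      have k4 := key 4 (by norm_num)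
      obtain ⟨γ, hγ⟩ : ∃ γ : ℤ, γ = c * e * L := ⟨_, rfl⟩
      obtain ⟨β, hβ⟩ : ∃ β : ℤ, β = b * e ^ 2 * L ^ 2 := ⟨_, rfl⟩
      obtain ⟨α, hα⟩ : ∃ α : ℤ, α = a * e ^ 3 * L ^ 3 := ⟨_, rfl⟩
      rw [← hγ, ← hβ, ← hα] at k1 k2 k3 k4
      have hα0 : α = 0 := by linarith
      have hβ0 : β = 0 := by linarith
      have hγ0 : γ = 0 := by linarith
      have hd0 : d = 0 := by linarith
      have hL0 : L ≠ 0 := by omega
      have ha : a = 0 := by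
        have : a * (e ^ 3 * L ^ 3) = 0 := by rw [← mul_assoc, ← hα]; exact hα0
        exact (mul_eq_zero.1 this).resolve_right (mul_ne_zero (pow_ne_zero _ he) (pow_ne_zero _ hL0))
      have hb : b = 0 := by
        have : b * (e ^ 2 * L ^ 2) = 0 := by rw [← mul_assoc, ← hβ]; exact hβ0
        exact (mul_eq_zero.1 this).resolve_right (mul_ne_zero (pow_ne_zero _ he) (pow_ne_zero _ hL0))
      have hc : c = 0 := by
        have : c * (e * L) = 0 := by rw [← mul_assoc, ← hγ]; exact hγ0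
        exact (mul_eq_zero.1 this).resolve_right (mul_ne_zero he hL0)
      apply hdisc
      rw [ha, hb, hc, hd0]; unfold I2 J3; ring
    obtain ⟨p, hp, hpQ⟩ := Nat.exists_prime_and_dvd ht
    refine ⟨p, hp, ?_, e * L * t, ?_⟩
    · by_contra hle
      have h1 : p ∣ N.factorial := (Nat.Prime.dvd_factorial hp).2 (by omega)
      have h2 : (p : ℤ) ∣ L := by
        rw [hL]; exact Dvd.dvd.mul_left (by exact_mod_cast h1) _
      have h3 : (p : ℤ) ∣ Q t := Int.natCast_dvd.2 hpQ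
      have h4 : (p : ℤ) ∣ 1 := by
        have e1 : (1 : ℤ) = Q t - L * (t * (d + c * e * L * t +
            b * e ^ 2 * L ^ 2 * t ^ 2 + a * e ^ 3 * L ^ 3 * t ^ 3)) := by
          rw [hQ]; ring
        rw [e1]
        exact dvd_sub h3 (Dvd.dvd.mul_right h2 _)
      have h5 : p ∣ 1 := by exact_mod_cast h4
      exact hp.one_lt.ne' (Nat.dvd_one.1 h5)
    · rw [hval]
      exact Dvd.dvd.mul_left (Int.natCast_dvd.2 hpQ) _

/-- the zero is simple if `p` does not divide `4 I³ - J²` -/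
theorem simple {p : ℕ} {n : ℤ} (hp : ¬ (p : ℤ) ∣ 4 * I2 a b c d e ^ 3 - J3 a b c d e ^ 2)
    (h : (p : ℤ) ∣ a * n ^ 4 + b * n ^ 3 + c * n ^ 2 + d * n + e) :
    ¬ (p : ℤ) ∣ 4 * a * n ^ 3 + 3 * b * n ^ 2 + 2 * c * n + d := by
  intro h'
  apply hp
  obtain ⟨f₂, hf₂⟩ : ∃ f₂ : ℤ, f₂ = 6 * a * n ^ 2 + 3 * b * n + c := ⟨_, rfl⟩
  have hI : (p : ℤ) ∣ I2 a b c d e - f₂ ^ 2 := by
    have e1 : I2 a b c d e - f₂ ^ 2 =
        (a * n ^ 4 + b * n ^ 3 + c * n ^ 2 + d * n + e) * (12 * a) -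
        (4 * a * n ^ 3 + 3 * b * n ^ 2 + 2 * c * n + d) * (3 * (4 * a * n + b)) := by
      rw [hf₂]; unfold I2; ring
    rw [e1]
    exact dvd_sub (Dvd.dvd.mul_right h _) (Dvd.dvd.mul_right h' _)
  have hJ : (p : ℤ) ∣ J3 a b c d e + 2 * f₂ ^ 3 := by
    have e1 : J3 a b c d e + 2 * f₂ ^ 3 =
        (a * n ^ 4 + b * n ^ 3 + c * n ^ 2 + d * n + e) *
          (72 * a * (6 * a * n ^ 2 + 3 * b * n + c) - 27 * (4 * a * n + b) ^ 2) +
        (4 * a * n ^ 3 + 3 * b * n ^ 2 + 2 * c * n + d) *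
          (9 * (4 * a * n + b) * (6 * a * n ^ 2 + 3 * b * n + c) -
            27 * a * (4 * a * n ^ 3 + 3 * b * n ^ 2 + 2 * c * n + d)) := by
      rw [hf₂]; unfold J3; ring
    rw [e1]
    exact dvd_add (Dvd.dvd.mul_right h _) (Dvd.dvd.mul_right h' _)
  have e2 : 4 * I2 a b c d e ^ 3 - J3 a b c d e ^ 2 =
      (I2 a b c d e - f₂ ^ 2) * (4 * (I2 a b c d e ^ 2 + I2 a b c d e * f₂ ^ 2 + f₂ ^ 4)) -
      (J3 a b c d e + 2 * f₂ ^ 3) * (J3 a b c d e - 2 * f₂ ^ 3) := by ring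
  rw [e2]
  exact dvd_sub (Dvd.dvd.mul_right hI _) (Dvd.dvd.mul_right hJ _)

/-- Hensel lifting with the exact power `p ^ 2` -/
theorem exact_two {p : ℕ} (hp : p.Prime) {n : ℤ}
    (h : (p : ℤ) ∣ a * n ^ 4 + b * n ^ 3 + c * n ^ 2 + d * n + e)
    (h' : ¬ (p : ℤ) ∣ 4 * a * n ^ 3 + 3 * b * n ^ 2 + 2 * c * n + d) :
    ∃ x m : ℤ, (p : ℤ) ∣ x - n ∧ a * x ^ 4 + b * x ^ 3 + c * x ^ 2 + d * x + e = m * p ^ 2 ∧
      ¬ (p : ℤ) ∣ m := by
  have hpz : Prime (p : ℤ) := Nat.prime_iff_prime_int.1 hp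
  obtain ⟨u, v, huv⟩ : IsCoprime (p : ℤ) (4 * a * n ^ 3 + 3 * b * n ^ 2 + 2 * c * n + d) :=
    (Prime.coprime_iff_not_dvd hpz).2 h'
  obtain ⟨w, hw⟩ := h
  obtain ⟨x₂, hx₂⟩ : ∃ x₂ : ℤ, x₂ = n - p * (w * v) := ⟨_, rfl⟩
  obtain ⟨M₂, hM₂⟩ : ∃ M₂ : ℤ, M₂ = w * u + (w * v) ^ 2 * (6 * a * n ^ 2 + 3 * b * n + c) -
    p * (w * v) ^ 3 * (4 * a * n + b) + p ^ 2 * (w * v) ^ 4 * a := ⟨_, rfl⟩
  have h2 : a * x₂ ^ 4 + b * x₂ ^ 3 + c * x₂ ^ 2 + d * x₂ + e = M₂ * p ^ 2 := by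
    rw [hM₂, hx₂]
    linear_combination hw - (p * w) * huv
  have hxn : (p : ℤ) ∣ x₂ - n := ⟨-(w * v), by rw [hx₂]; ring⟩
  by_cases hpm : (p : ℤ) ∣ M₂
  · refine ⟨x₂ + p ^ 2, M₂ + (4 * a * x₂ ^ 3 + 3 * b * x₂ ^ 2 + 2 * c * x₂ + d) +
      p ^ 2 * (6 * a * x₂ ^ 2 + 3 * b * x₂ + c) + p ^ 4 * (4 * a * x₂ + b) + p ^ 6 * a,
      ?_, ?_, ?_⟩
    · have e1 : x₂ + (p : ℤ) ^ 2 - n = (x₂ - n) + p * p := by ring
      rw [e1]
      exact dvd_add hxn (Dvd.intro _ rfl)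
    · linear_combination h2
    · intro hcon
      apply h'
      obtain ⟨q, hq⟩ := hxn
      have e1 : 4 * a * n ^ 3 + 3 * b * n ^ 2 + 2 * c * n + d =
          (M₂ + (4 * a * x₂ ^ 3 + 3 * b * x₂ ^ 2 + 2 * c * x₂ + d) +
            p ^ 2 * (6 * a * x₂ ^ 2 + 3 * b * x₂ + c) + p ^ 4 * (4 * a * x₂ + b) + p ^ 6 * a) -
          M₂ - p * (p * (6 * a * x₂ ^ 2 + 3 * b * x₂ + c) + p ^ 3 * (4 * a * x₂ + b) +
            p ^ 5 * a) - p * (q * (4 * a * (x₂ ^ 2 + x₂ * n + n ^ 2) + 3 * b * (x₂ + n) +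
              2 * c)) := by
        linear_combination (-(4 * a * (x₂ ^ 2 + x₂ * n + n ^ 2) + 3 * b * (x₂ + n) + 2 * c)) * hq
      rw [e1]
      exact dvd_sub (dvd_sub (dvd_sub hcon hpm) (Dvd.intro _ rfl)) (Dvd.intro _ rfl)
  · exact ⟨x₂, M₂, hxn, h2, hpm⟩

end Pool.Agent.helper440_quartic
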