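import Pool.Agent.helper440_quartic.Padic
import Pool.Agent.helper440_quartic.Bounds

/-!
# Points with prescribed parameter mod `p ^ (3 s)`
-/

namespace Pool.Agent.helper440_quartic

open Pool.Agent.helper440_cubic2

variable {p : ℕ} [Fact p.Prime] {a b c d e m n K : ℤ}

/-- a point of `F = m z²` close to `(n, 1)` mod `p`, with `z / y² ≡ τ` mod `p ^ k`, and its size -/
def Pt (p : ℕ) [Fact p.Prime] (a b c d e m n K : ℤ) (k : ℕ) (τ : ℤ_[p]) (N : ℤ) : Prop :=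
  ∃ x y z : ℤ, F a b c d e x y = m * z ^ 2 ∧ y ≠ 0 ∧
    (∃ X T : ℤ_[p], (x : ℤ_[p]) = X * y ∧ (z : ℤ_[p]) = T * y ^ 2 ∧ (p : ℤ_[p]) ∣ X - n ∧
      (p : ℤ_[p]) ^ k ∣ T - τ) ∧ K * |x| ≤ N ∧ K * |y| ≤ N

theorem Pt.mono {k : ℕ} {τ : ℤ_[p]} {N N' : ℤ} (h : Pt p a b c d e m n K k τ N)
    (hN : N ≤ N') : Pt p a b c d e m n K k τ N' := by
  obtain ⟨x, y, z, h1, h2, h3, h4, h5⟩ := h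
  exact ⟨x, y, z, h1, h2, h3, h4.trans hN, h5.trans hN⟩

theorem Pt.neg {k : ℕ} {τ : ℤ_[p]} {N : ℤ} (h : Pt p a b c d e m n K k τ N) :
    Pt p a b c d e m n K k (-τ) N := by
  obtain ⟨x, y, z, h1, h2, ⟨X, T, hX, hT, hXn, hTτ⟩, h4, h5⟩ := h
  refine ⟨x, y, -z, by rw [h1]; ring, h2, ⟨X, -T, hX, ?_, hXn, ?_⟩, h4, h5⟩
  · push_cast; rw [hT]; ring
  · have e1 : -T - -τ = -(T - τ) := by ring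
    rw [e1]; exact (dvd_neg).2 hTτ

theorem affine {x y z : ℤ} (h : F a b c d e x y = m * z ^ 2) (hy : y ≠ 0) {X T : ℤ_[p]}
    (hx : (x : ℤ_[p]) = X * y) (hz : (z : ℤ_[p]) = T * y ^ 2) :
    (a : ℤ_[p]) * X ^ 4 + b * X ^ 3 + c * X ^ 2 + d * X + e = m * T ^ 2 := by
  have hy' : ((y : ℤ) : ℤ_[p]) ≠ 0 := by exact_mod_cast hy
  have h1 : ((F a b c d e x y : ℤ) : ℤ_[p]) = ((m * z ^ 2 : ℤ) : ℤ_[p]) := by rw [h]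
  unfold F at h1
  push_cast at h1
  rw [hx, hz] at h1
  apply mul_left_cancel₀ (pow_ne_zero 4 hy')
  linear_combination h1

/-- the assumptions -/
def Good (p : ℕ) [Fact p.Prime] (a b c d e m n K : ℤ) : Prop :=
  ¬ (p : ℤ_[p]) ∣ (m : ℤ_[p]) ∧
    ¬ (p : ℤ_[p]) ∣ (4 * a * n ^ 3 + 3 * b * n ^ 2 + 2 * c * n + d : ℤ_[p]) ∧
    ¬ (p : ℤ_[p]) ∣ 2 ∧ ¬ (p : ℤ_[p]) ∣ 3 ∧ Bound a b c d e m K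

theorem size_aux {K M N u : ℤ} (hK : 1 ≤ K) (hM : 0 ≤ M) (hN : K * M ≤ N) (hu : |u| ≤ K * M ^ 9) :
    K * |u| ≤ N ^ 9 := by
  have hK0 : 0 ≤ K := by linarith
  have h7 : 0 ≤ K * M := mul_nonneg hK0 hM
  calc K * |u| ≤ K * (K * M ^ 9) := mul_le_mul_of_nonneg_left hu hK0
    _ ≤ K ^ 7 * (K * (K * M ^ 9)) := le_mul_of_one_le_left (by positivity) (one_le_pow₀ hK)
    _ = (K * M) ^ 9 := by ring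
    _ ≤ N ^ 9 := by gcongr

theorem max_size {K N x y : ℤ} (hx : K * |x| ≤ N) (hy : K * |y| ≤ N) : K * max |x| |y| ≤ N := by
  rcases max_cases |x| |y| with h | h
  · rw [h.1]; exact hx
  · rw [h.1]; exact hy

/-- the point `-(2 P + Q)` -/
theorem Pt.chord (hG : Good p a b c d e m n K) {s : ℕ} (hs : 1 ≤ s) {τ₁ τ₂ : ℤ_[p]} {N : ℤ}
    (hτ₁ : (p : ℤ_[p]) ^ s ∣ τ₁) (hτ₂ : (p : ℤ_[p]) ^ s ∣ τ₂)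
    (hne : ¬ (p : ℤ_[p]) ^ (3 * s) ∣ τ₁ - τ₂) (hne0 : ¬ (p : ℤ_[p]) ^ (3 * s) ∣ τ₁)
    (hA : Pt p a b c d e m n K (3 * s) τ₁ N) (hB : Pt p a b c d e m n K (3 * s) τ₂ N) :
    Pt p a b c d e m n K (3 * s) (-(2 * τ₁ + τ₂)) (N ^ 9) := by
  obtain ⟨hm, hder, h2, h3, hK, hK'⟩ := hG
  obtain ⟨x₁, y₁, z₁, h₁, hy₁, ⟨X₁, T₁, hX₁, hT₁, hXn₁, hTτ₁⟩, hKx₁, hKy₁⟩ := hA
  obtain ⟨x₂, y₂, z₂, h₂, hy₂, ⟨X₂, T₂, hX₂, hT₂, hXn₂, hTτ₂⟩, hKx₂, hKy₂⟩ := hB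
  have hps : (p : ℤ_[p]) ^ s ∣ p ^ (3 * s) := pow_dvd_pow _ (by omega)
  have hT₁s : (p : ℤ_[p]) ^ s ∣ T₁ := by
    have e : T₁ = (T₁ - τ₁) + τ₁ := by ring
    rw [e]; exact dvd_add (hps.trans hTτ₁) hτ₁
  have hT₂s : (p : ℤ_[p]) ^ s ∣ T₂ := by
    have e : T₂ = (T₂ - τ₂) + τ₂ := by ring
    rw [e]; exact dvd_add (hps.trans hTτ₂) hτ₂
  have hTne : T₁ ≠ T₂ := by
    intro h
    apply hne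
    have e : τ₁ - τ₂ = (T₂ - τ₂) - (T₁ - τ₁) := by rw [h]; ring
    rw [e]; exact dvd_sub hTτ₂ hTτ₁
  have hT0 : T₁ ≠ 0 := by
    intro h
    apply hne0
    rw [h, zero_sub, dvd_neg] at hTτ₁
    exact hTτ₁
  obtain ⟨X₃, T₃, Yv, hY0, hY, hXY, hTY, hXn₃, hT₃⟩ :=
    chord_padic (affine h₁ hy₁ hX₁ hT₁) (affine h₂ hy₂ hX₂ hT₂) hXn₁ hXn₂ hder hm h2 hs hT₁s hT₂s
      hTne hT0 rfl rfl rfl rfl rfl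
  have hy₁' : ((y₁ : ℤ) : ℤ_[p]) ≠ 0 := by exact_mod_cast hy₁
  have hy₂' : ((y₂ : ℤ) : ℤ_[p]) ≠ 0 := by exact_mod_cast hy₂
  obtain ⟨G₁, hG₁⟩ : ∃ G₁ : ℤ_[p], G₁ = X₂ * (4 * a * X₁ ^ 3 + 3 * b * X₁ ^ 2 + 2 * c * X₁ + d) +
      (b * X₁ ^ 3 + 2 * c * X₁ ^ 2 + 3 * d * X₁ + 4 * e) := ⟨_, rfl⟩
  obtain ⟨G₂, hG₂⟩ : ∃ G₂ : ℤ_[p], G₂ = 6 * a * X₁ ^ 2 * X₂ ^ 2 +
      3 * b * (X₁ ^ 2 * X₂ + X₁ * X₂ ^ 2) +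
      c * (X₁ ^ 2 + 4 * X₁ * X₂ + X₂ ^ 2) + 3 * d * (X₂ + X₁) + 6 * e := ⟨_, rfl⟩
  obtain ⟨G₃, hG₃⟩ : ∃ G₃ : ℤ_[p], G₃ = X₁ * (4 * a * X₂ ^ 3 + 3 * b * X₂ ^ 2 + 2 * c * X₂ + d) +
      (b * X₂ ^ 3 + 2 * c * X₂ ^ 2 + 3 * d * X₂ + 4 * e) := ⟨_, rfl⟩
  rw [← hG₁, ← hG₂, ← hG₃] at hY hXY hTY
  obtain ⟨Sv, hSv⟩ : ∃ Sv : ℤ_[p], Sv = T₁ * G₃ - T₂ * G₁ := ⟨_, rfl⟩
  rw [← hSv] at hY hXY hTY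
  obtain ⟨ρ, hρ⟩ : ∃ ρ : ℤ_[p], ρ = G₁ ^ 2 - 4 * m * T₁ ^ 2 * G₂ + 8 * m ^ 2 * T₁ ^ 3 * T₂ :=
    ⟨_, rfl⟩
  rw [← hρ] at hY hXY hTY
  have hg1 : ((x₂ * Fx a b c d x₁ y₁ + y₂ * Fy b c d e x₁ y₁ : ℤ) : ℤ_[p]) =
      y₁ ^ 3 * y₂ * G₁ := by
    unfold Fx Fy
    push_cast
    rw [hX₁, hX₂, hG₁]; ring
  have hg3 : ((x₁ * Fx a b c d x₂ y₂ + y₁ * Fy b c d e x₂ y₂ : ℤ) : ℤ_[p]) =
      y₁ * y₂ ^ 3 * G₃ := by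
    unfold Fx Fy
    push_cast
    rw [hX₁, hX₂, hG₃]; ring
  have hg2 : ((G2 a b c d e x₁ y₁ x₂ y₂ : ℤ) : ℤ_[p]) = y₁ ^ 2 * y₂ ^ 2 * G₂ := by
    unfold G2
    push_cast
    rw [hX₁, hX₂, hG₂]; ring
  have hS0 : ((S0 a b c d e x₁ y₁ z₁ x₂ y₂ z₂ : ℤ) : ℤ_[p]) = y₁ ^ 3 * y₂ ^ 3 * Sv := by
    unfold S0
    rw [Int.cast_sub, Int.cast_mul, Int.cast_mul, hg1, hg3, hT₁, hT₂, hSv]; ring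
  have hRho : ((Rho a b c d e m x₁ y₁ z₁ x₂ y₂ z₂ : ℤ) : ℤ_[p]) = y₁ ^ 6 * y₂ ^ 2 * ρ := by
    unfold Rho
    rw [Int.cast_add, Int.cast_sub, Int.cast_pow, hg1, Int.cast_mul _ (G2 a b c d e x₁ y₁ x₂ y₂),
      hg2]
    push_cast
    rw [hT₁, hT₂, hρ]; ring
  have hy₃ : ((4 * m * z₁ * S0 a b c d e x₁ y₁ z₁ x₂ y₂ z₂ * y₁ +
        Rho a b c d e m x₁ y₁ z₁ x₂ y₂ z₂ * y₂ : ℤ) : ℤ_[p]) = y₁ ^ 6 * y₂ ^ 3 * Yv := by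
    rw [← hY]; push_cast; rw [hS0, hRho, hT₁]; ring
  have hx₃ : ((4 * m * z₁ * S0 a b c d e x₁ y₁ z₁ x₂ y₂ z₂ * x₁ +
        Rho a b c d e m x₁ y₁ z₁ x₂ y₂ z₂ * x₂ : ℤ) : ℤ_[p]) =
      X₃ * (y₁ ^ 6 * y₂ ^ 3 * Yv) := by
    push_cast; rw [hS0, hRho, hT₁, hX₁, hX₂]
    linear_combination ((y₁ : ℤ_[p]) ^ 6 * y₂ ^ 3) * hXY
  have hz₃ : ((Z3 a b c d e m x₁ y₁ z₁ x₂ y₂ z₂ : ℤ) : ℤ_[p]) =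
      T₃ * (y₁ ^ 6 * y₂ ^ 3 * Yv) ^ 2 := by
    unfold Z3
    have e1 : ((2 * (x₂ * Fx a b c d x₁ y₁ + y₂ * Fy b c d e x₁ y₁) : ℤ) : ℤ_[p]) =
        2 * (y₁ ^ 3 * y₂ * G₁) := by
      rw [Int.cast_mul, hg1]; push_cast; ring
    rw [Int.cast_add, Int.cast_add,
      Int.cast_mul (2 * (x₂ * Fx a b c d x₁ y₁ + y₂ * Fy b c d e x₁ y₁) *
        S0 a b c d e x₁ y₁ z₁ x₂ y₂ z₂) _,
      Int.cast_mul (2 * (x₂ * Fx a b c d x₁ y₁ + y₂ * Fy b c d e x₁ y₁)) _, e1]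
    push_cast
    rw [hS0, hRho, hT₁, hT₂]
    linear_combination ((y₁ : ℤ_[p]) ^ 12 * y₂ ^ 6) * hTY
  refine ⟨4 * m * z₁ * S0 a b c d e x₁ y₁ z₁ x₂ y₂ z₂ * x₁ +
      Rho a b c d e m x₁ y₁ z₁ x₂ y₂ z₂ * x₂,
    4 * m * z₁ * S0 a b c d e x₁ y₁ z₁ x₂ y₂ z₂ * y₁ + Rho a b c d e m x₁ y₁ z₁ x₂ y₂ z₂ * y₂,
    Z3 a b c d e m x₁ y₁ z₁ x₂ y₂ z₂, chord_on _ _ _ _ _ h₁ h₂, ?_, ⟨X₃, T₃, ?_, ?_, hXn₃, ?_⟩, ?_⟩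
  · intro h0
    rw [h0, Int.cast_zero] at hy₃
    exact (mul_ne_zero (mul_ne_zero (pow_ne_zero 6 hy₁') (pow_ne_zero 3 hy₂')) hY0) hy₃.symm
  · rw [hx₃, hy₃]
  · rw [hz₃, hy₃]
  · have e : T₃ - -(2 * τ₁ + τ₂) = (T₃ + 2 * T₁ + T₂) - 2 * (T₁ - τ₁) - (T₂ - τ₂) := by ring
    rw [e]
    exact dvd_sub (dvd_sub hT₃ (Dvd.dvd.mul_left hTτ₁ _)) hTτ₂
  · obtain ⟨M, hMd⟩ : ∃ M : ℤ, M = max (max |x₁| |y₁|) (max |x₂| |y₂|) := ⟨_, rfl⟩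
    have a1 : |x₁| ≤ M := by rw [hMd]; exact (le_max_left _ _).trans (le_max_left _ _)
    have a2 : |y₁| ≤ M := by rw [hMd]; exact (le_max_right _ _).trans (le_max_left _ _)
    have a3 : |x₂| ≤ M := by rw [hMd]; exact (le_max_left _ _).trans (le_max_right _ _)
    have a4 : |y₂| ≤ M := by rw [hMd]; exact (le_max_right _ _).trans (le_max_right _ _)
    have hKM : K * M ≤ N := by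
      rcases max_cases (max |x₁| |y₁|) (max |x₂| |y₂|) with h | h
      · rw [hMd, h.1]; exact max_size hKx₁ hKy₁
      · rw [hMd, h.1]; exact max_size hKx₂ hKy₂
    obtain ⟨h5, h6, -, -⟩ := hK' x₁ y₁ z₁ x₂ y₂ z₂ M a1 a2 a3 a4 h₁ h₂
    have hM0 : 0 ≤ M := (abs_nonneg _).trans a1
    exact ⟨size_aux hK hM0 hKM h5, size_aux hK hM0 hKM h6⟩

/-- the point `-3 P` -/
theorem Pt.triple (hG : Good p a b c d e m n K) {s : ℕ} (hs : 1 ≤ s) {τ₁ : ℤ_[p]} {N : ℤ}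
    (hτ₁ : (p : ℤ_[p]) ^ s ∣ τ₁) (hA : Pt p a b c d e m n K (3 * s) τ₁ N) :
    Pt p a b c d e m n K (3 * s) (-(3 * τ₁)) (N ^ 9) := by
  obtain ⟨hm, hder, h2, h3, hK, hK'⟩ := hG
  obtain ⟨x₁, y₁, z₁, h₁, hy₁, ⟨X₁, T₁, hX₁, hT₁, hXn₁, hTτ₁⟩, hKx₁, hKy₁⟩ := hA
  have hps : (p : ℤ_[p]) ^ s ∣ p ^ (3 * s) := pow_dvd_pow _ (by omega)
  have hT₁s : (p : ℤ_[p]) ^ s ∣ T₁ := by
    have e : T₁ = (T₁ - τ₁) + τ₁ := by ring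
    rw [e]; exact dvd_add (hps.trans hTτ₁) hτ₁
  have haff := affine h₁ hy₁ hX₁ hT₁
  have hy₁' : ((y₁ : ℤ) : ℤ_[p]) ≠ 0 := by exact_mod_cast hy₁
  obtain ⟨f₀, hf₀⟩ : ∃ f₀ : ℤ_[p], f₀ = m * T₁ ^ 2 := ⟨_, rfl⟩
  obtain ⟨f₁, hf₁⟩ : ∃ f₁ : ℤ_[p], f₁ = 4 * a * X₁ ^ 3 + 3 * b * X₁ ^ 2 + 2 * c * X₁ + d :=
    ⟨_, rfl⟩
  obtain ⟨f₂, hf₂⟩ : ∃ f₂ : ℤ_[p], f₂ = 6 * a * X₁ ^ 2 + 3 * b * X₁ + c := ⟨_, rfl⟩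
  obtain ⟨f₃, hf₃⟩ : ∃ f₃ : ℤ_[p], f₃ = 4 * a * X₁ + b := ⟨_, rfl⟩
  obtain ⟨i, hi⟩ : ∃ i : ℤ_[p], i = 12 * a * e - 3 * b * d + c ^ 2 := ⟨_, rfl⟩
  obtain ⟨H₁, hH₁⟩ : ∃ H₁ : ℤ_[p], H₁ = 8 * f₀ * f₂ - 3 * f₁ ^ 2 := ⟨_, rfl⟩
  obtain ⟨C, hC⟩ : ∃ C : ℤ_[p], C = -(f₁ ^ 3 - 4 * f₀ * f₁ * f₂ + 8 * f₀ ^ 2 * f₃) := ⟨_, rfl⟩
  obtain ⟨s₁, hs₁⟩ : ∃ s₁ : ℤ_[p], s₁ = H₁ ^ 2 - 16 * i * f₀ ^ 2 := ⟨_, rfl⟩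
  obtain ⟨κ, hκ⟩ : ∃ κ : ℤ_[p], κ = s₁ + 6 * C * f₁ := ⟨_, rfl⟩
  have hf₁u : ¬ (p : ℤ_[p]) ∣ f₁ := by
    refine not_dvd_of_sub hder ?_
    have e1 : f₁ - (4 * a * n ^ 3 + 3 * b * n ^ 2 + 2 * c * n + d) =
        (X₁ - n) * (4 * a * (X₁ ^ 2 + X₁ * n + n ^ 2) + 3 * b * (X₁ + n) + 2 * c) := by
      rw [hf₁]; ring
    rw [e1]; exact Dvd.dvd.mul_right hXn₁ _
  obtain ⟨ε, hε, hpf₀, hT3⟩ := triple_padic hf₀ hf₁u h3 hH₁ hC hs₁ hκ hs hT₁s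
  have hf₀' : f₀ = a * X₁ ^ 4 + b * X₁ ^ 3 + c * X₁ ^ 2 + d * X₁ + e := by rw [hf₀, ← haff]
  have cF : ((F a b c d e x₁ y₁ : ℤ) : ℤ_[p]) = y₁ ^ 4 * f₀ := by
    unfold F
    push_cast
    rw [hX₁, hf₀']; ring
  have cFx : ((Fx a b c d x₁ y₁ : ℤ) : ℤ_[p]) = y₁ ^ 3 * f₁ := by
    unfold Fx
    push_cast
    rw [hX₁, hf₁]; ring
  have cFy : ((Fy b c d e x₁ y₁ : ℤ) : ℤ_[p]) = y₁ ^ 3 * (4 * f₀ - X₁ * f₁) := by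
    unfold Fy
    push_cast
    rw [hX₁, hf₁, hf₀']; ring
  have cH : ((H a b c d e x₁ y₁ : ℤ) : ℤ_[p]) = y₁ ^ 4 * H₁ := by
    unfold H
    push_cast
    rw [hX₁, hH₁, hf₁, hf₂, hf₀']; ring
  have cT : ((T6 a b c d e x₁ y₁ : ℤ) : ℤ_[p]) = y₁ ^ 6 * C := by
    unfold T6
    push_cast
    rw [hX₁, hC, hf₁, hf₂, hf₃, hf₀']; ring
  have cs : ((s8 a b c d e x₁ y₁ : ℤ) : ℤ_[p]) = y₁ ^ 8 * s₁ := by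
    unfold s8 I2
    push_cast
    rw [cH, cF, hs₁, hi]; ring
  have cY : ((Y a b c d e x₁ y₁ : ℤ) : ℤ_[p]) = κ * y₁ ^ 9 := by
    unfold Y
    push_cast
    rw [cs, cT, cFx, hκ]; ring
  have cX : ((X a b c d e x₁ y₁ : ℤ) : ℤ_[p]) = (κ * X₁ - 24 * C * f₀) * y₁ ^ 9 := by
    unfold X
    push_cast
    rw [cs, cT, cFy, hκ, hX₁]; ring
  have cZ : ((Z a b c d e x₁ y₁ : ℤ) : ℤ_[p]) = (s₁ ^ 2 + 36 * H₁ * C ^ 2) * y₁ ^ 16 := by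
    unfold Z
    push_cast
    rw [cs, cH, cT]; ring
  have hκ0 : κ ≠ 0 := by
    intro h
    rw [h, zero_mul] at hε
    exact zero_ne_one hε
  refine ⟨X a b c d e x₁ y₁, Y a b c d e x₁ y₁, z₁ * Z a b c d e x₁ y₁, ?_, ?_,
    ⟨X₁ - 24 * C * f₀ * ε, T₁ * (s₁ ^ 2 + 36 * H₁ * C ^ 2) * ε ^ 2, ?_, ?_, ?_, ?_⟩, ?_⟩
  · rw [helper440_quartic.triple, h₁]; ring
  · intro h0
    rw [h0, Int.cast_zero] at cY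
    exact (mul_ne_zero hκ0 (pow_ne_zero 9 hy₁')) cY.symm
  · rw [cX, cY]
    linear_combination (24 * C * f₀ * y₁ ^ 9) * hε
  · rw [cY]
    push_cast
    rw [cZ, hT₁]
    linear_combination (-(T₁ * (s₁ ^ 2 + 36 * H₁ * C ^ 2) * y₁ ^ 18) * (κ * ε + 1)) * hε
  · have e1 : X₁ - 24 * C * f₀ * ε - n = (X₁ - n) - f₀ * (24 * C * ε) := by ring
    rw [e1]
    exact dvd_sub hXn₁ (Dvd.dvd.mul_right hpf₀ _)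
  · have e1 : T₁ * (s₁ ^ 2 + 36 * H₁ * C ^ 2) * ε ^ 2 - -(3 * τ₁) =
        (T₁ * (s₁ ^ 2 + 36 * H₁ * C ^ 2) * ε ^ 2 + 3 * T₁) - 3 * (T₁ - τ₁) := by ring
    rw [e1]
    exact dvd_sub hT3 (Dvd.dvd.mul_left hTτ₁ _)
  · obtain ⟨-, -, h5, h6⟩ := hK' x₁ y₁ z₁ x₁ y₁ z₁ (max |x₁| |y₁|) (le_max_left _ _)
      (le_max_right _ _) (le_max_left _ _) (le_max_right _ _) h₁ h₁
    have hM0 : 0 ≤ max |x₁| |y₁| := (abs_nonneg _).trans (le_max_left _ _)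
    have hKM := max_size hKx₁ hKy₁
    exact ⟨size_aux hK hM0 hKM h5, size_aux hK hM0 hKM h6⟩

end Pool.Agent.helper440_quartic
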