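import Pool.Agent.helper440_cubic2.RadP
import Pool.Agent.helper440_quartic.Ladder

/-!
# The radical of a value of the quartic form, and the reduction to coprime coordinates
-/

namespace Pool.Agent.helper440_quartic

open Pool.Agent.helper440_cubic2
open Pool.Agent.helper440_cubic (R R_le R_pos R_mono R_mul_le)

theorem R_sq_p {p : ℕ} (hp : p.Prime) {M m : ℤ} {ρ : ℚ} {n : ℕ} (hM : M ≠ 0) (hm : m ≠ 0)
    (h : (M : ℚ) = m * ρ ^ 2) (hd : (p : ℤ) ^ (2 * n) ∣ M) (hpm : ¬ (p : ℤ) ∣ m) {B : ℕ}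
    (hB : M.natAbs ≤ B ^ 2) : p ^ n * R M.natAbs ≤ m.natAbs * (p * B) := by
  have hpz : Prime (p : ℤ) := Nat.prime_iff_prime_int.1 hp
  set u : ℤ := ρ.num with hu
  set q : ℤ := (ρ.den : ℤ) with hq
  have hq0 : q ≠ 0 := by rw [hq]; exact_mod_cast ρ.den_nz
  have hcop : IsCoprime u q := ρ.isCoprime_num_den
  have hρq : ρ * q = u := by rw [hq, hu]; exact_mod_cast Rat.mul_den_eq_num ρ
  have hz : M * q ^ 2 = m * u ^ 2 := by
    have : (M : ℚ) * q ^ 2 = m * u ^ 2 := by rw [h, ← hρq]; ring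
    exact_mod_cast this
  have hu0 : u ≠ 0 := by
    intro h0
    rw [h0] at hz
    have : M * q ^ 2 ≠ 0 := mul_ne_zero hM (pow_ne_zero _ hq0)
    apply this
    rw [hz]; ring
  have h3 : (p : ℤ) ^ n ∣ u := by
    have h5 : (p : ℤ) ^ (2 * n) ∣ m * u ^ 2 := by
      rw [← hz]; exact Dvd.dvd.mul_right hd _
    have h6 := hpz.pow_dvd_of_dvd_mul_left _ hpm h5
    rw [mul_comm 2 n, pow_mul] at h6
    exact (Int.pow_dvd_pow_iff (by norm_num)).1 h6
  have hqd : q ^ 2 ∣ m := by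
    have : q ^ 2 ∣ m * u ^ 2 := ⟨M, by rw [← hz]; ring⟩
    exact (IsCoprime.pow hcop.symm).dvd_of_dvd_mul_right this
  have hule : u.natAbs ≤ B := by
    have h7 : u.natAbs ^ 2 ≤ M.natAbs := by
      obtain ⟨r, hr⟩ := hqd
      have h8 : M = r * u ^ 2 := by
        apply mul_right_cancel₀ (pow_ne_zero 2 hq0)
        rw [hz, hr]; ring
      rw [h8, Int.natAbs_mul, Int.natAbs_pow]
      have hr0 : 0 < r.natAbs := by
        rw [Int.natAbs_pos]
        intro h9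
        apply hm
        rw [hr, h9, mul_zero]
      exact Nat.le_mul_of_pos_left _ hr0
    exact (Nat.pow_le_pow_iff_left (by norm_num)).1 (h7.trans hB)
  have h10 : p ^ n ∣ u.natAbs := by
    have : ((p ^ n : ℕ) : ℤ) ∣ u := by push_cast; exact h3
    exact Int.natCast_dvd.1 this
  have hRm : R M.natAbs ≤ m.natAbs * R u.natAbs := by
    have h11 : M ∣ m * u ^ 2 := ⟨q ^ 2, by rw [← hz]⟩
    have h12 : M.natAbs.primeFactors ⊆ (m.natAbs * u.natAbs).primeFactors := by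
      intro l hl
      have hlp := Nat.prime_of_mem_primeFactors hl
      have hl1 := Nat.dvd_of_mem_primeFactors hl
      have hl2 : l ∣ (m * u ^ 2).natAbs := hl1.trans (Int.natAbs_dvd_natAbs.2 h11)
      rw [Int.natAbs_mul, Int.natAbs_pow] at hl2
      rw [Nat.mem_primeFactors]
      refine ⟨hlp, ?_, mul_ne_zero (Int.natAbs_ne_zero.2 hm) (Int.natAbs_ne_zero.2 hu0)⟩
      rcases (Nat.Prime.dvd_mul hlp).1 hl2 with h13 | h13
      · exact Dvd.dvd.mul_right h13 _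
      · exact Dvd.dvd.mul_left (hlp.dvd_of_dvd_pow h13) _
    calc R M.natAbs ≤ R (m.natAbs * u.natAbs) := R_mono h12
      _ ≤ R m.natAbs * R u.natAbs := R_mul_le _ _
      _ ≤ m.natAbs * R u.natAbs := Nat.mul_le_mul_right _ (R_le (Int.natAbs_ne_zero.2 hm))
  calc p ^ n * R M.natAbs ≤ p ^ n * (m.natAbs * R u.natAbs) := Nat.mul_le_mul_left _ hRm
    _ = m.natAbs * (p ^ n * R u.natAbs) := by ring
    _ ≤ m.natAbs * (p * u.natAbs) :=
        Nat.mul_le_mul_left _ (R_of_pow hp (Int.natAbs_ne_zero.2 hu0) h10)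
    _ ≤ m.natAbs * (p * B) := Nat.mul_le_mul_left _ (Nat.mul_le_mul_left _ hule)

variable {p : ℕ} [Fact p.Prime] {a b c d e m n K : ℤ}

theorem F_smul (g x y : ℤ) : F a b c d e (g * x) (g * y) = g ^ 4 * F a b c d e x y := by
  unfold F; ring

/-- the reduction to coprime coordinates -/
theorem Pt.reduce {k j : ℕ} {τ : ℤ_[p]} {N : ℤ} (h : Pt p a b c d e m n K k τ N) (hK : 1 ≤ K)
    (hm : m ≠ 0) (he : j + 1 ≤ k) (hτ : (p : ℤ_[p]) ^ j ∣ τ) (hτ' : ¬ (p : ℤ_[p]) ^ (j + 1) ∣ τ) :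
    ∃ (x y : ℤ) (ρ : ℚ), IsCoprime x y ∧ F a b c d e x y ≠ 0 ∧
      (F a b c d e x y : ℚ) = m * ρ ^ 2 ∧
      (p : ℤ) ^ (2 * j) ∣ F a b c d e x y ∧ max |x| |y| ≤ N := by
  obtain ⟨x, y, z, h1, hy, ⟨X, T, hX, hT, -, hTτ⟩, hKx, hKy⟩ := h
  have hTe : (p : ℤ_[p]) ^ j ∣ T := by
    have e1 : T = (T - τ) + τ := by ring
    rw [e1]; exact dvd_add ((pow_dvd_pow _ (by omega)).trans hTτ) hτ
  have hT0 : T ≠ 0 := by
    intro h0
    apply hτ'
    rw [h0, zero_sub, dvd_neg] at hTτ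
    exact (pow_dvd_pow _ he).trans hTτ
  have hy' : ((y : ℤ) : ℤ_[p]) ≠ 0 := by exact_mod_cast hy
  have hz0 : z ≠ 0 := by
    intro h0
    rw [h0, Int.cast_zero] at hT
    exact (mul_ne_zero hT0 (pow_ne_zero 2 hy')) hT.symm
  set g : ℤ := (Int.gcd x y : ℤ) with hg
  have hgx : g ∣ x := Int.gcd_dvd_left ..
  have hgy : g ∣ y := Int.gcd_dvd_right ..
  have hg0 : g ≠ 0 := fun h0 => hy (zero_dvd_iff.1 (h0 ▸ hgy))
  obtain ⟨x', hx'⟩ := hgx
  obtain ⟨y', hy''⟩ := hgy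
  have hcop : IsCoprime x' y' := by
    obtain ⟨r, t, hrt⟩ := Int.gcd_dvd_iff.1 (dvd_refl (Int.gcd x y))
    refine ⟨r, t, ?_⟩
    have h1 : g * (r * x' + t * y') = g * 1 := by
      have e1 : g = x * r + y * t := by rw [hg]; exact_mod_cast hrt
      calc g * (r * x' + t * y') = (g * x') * r + (g * y') * t := by ring
        _ = x * r + y * t := by rw [← hx', ← hy'']
        _ = g * 1 := by rw [← e1, mul_one]
    exact mul_left_cancel₀ hg0 h1
  have hmain : g ^ 4 * F a b c d e x' y' = m * z ^ 2 := by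
    rw [← F_smul, ← hx', ← hy'', h1]
  have hF' : F a b c d e x' y' ≠ 0 := by
    intro h
    rw [h, mul_zero] at hmain
    exact (mul_ne_zero hm (pow_ne_zero 2 hz0)) hmain.symm
  refine ⟨x', y', (z : ℚ) / g ^ 2, hcop, hF', ?_, ?_, ?_⟩
  · have hgq : (g : ℚ) ≠ 0 := by exact_mod_cast hg0
    have hmq : (g : ℚ) ^ 4 * F a b c d e x' y' = m * (z : ℚ) ^ 2 := by
      exact_mod_cast hmain
    field_simp
    linarith
  · have hgp : ((g : ℤ) : ℤ_[p]) ≠ 0 := by exact_mod_cast hg0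
    have h2 : ((F a b c d e x' y' : ℤ) : ℤ_[p]) = m * T ^ 2 * y' ^ 4 := by
      have h3 : (g : ℤ_[p]) ^ 4 * ((F a b c d e x' y' : ℤ) : ℤ_[p]) = m * (z : ℤ_[p]) ^ 2 := by
        exact_mod_cast congrArg (Int.cast : ℤ → ℤ_[p]) hmain
      have h4 : (y : ℤ_[p]) = g * y' := by exact_mod_cast congrArg (Int.cast : ℤ → ℤ_[p]) hy''
      apply mul_left_cancel₀ (pow_ne_zero 4 hgp)
      rw [h3, hT, h4]; ring
    rw [← PadicInt.pow_p_dvd_int_iff, h2]
    refine Dvd.dvd.mul_right (Dvd.dvd.mul_left ?_ _) _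
    have e2 : (p : ℤ_[p]) ^ (2 * j) = (p ^ j) ^ 2 := by rw [← pow_mul]; congr 1; ring
    rw [e2]
    exact pow_dvd_pow_of_dvd hTe 2
  · have hgabs : 1 ≤ |g| := Int.one_le_abs hg0
    have h5 : |x'| ≤ |x| := by
      rw [hx', abs_mul]; exact le_mul_of_one_le_left (abs_nonneg _) hgabs
    have h6 : |y'| ≤ |y| := by
      rw [hy'', abs_mul]; exact le_mul_of_one_le_left (abs_nonneg _) hgabs
    refine max_le ?_ ?_
    · exact (h5.trans (le_mul_of_one_le_left (abs_nonneg _) hK)).trans hKx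
    · exact (h6.trans (le_mul_of_one_le_left (abs_nonneg _) hK)).trans hKy

end Pool.Agent.helper440_quartic
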