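import Pool.Agent.helper440_quartic.Climb
import Pool.Agent.helper440_quartic.Prime
import Pool.Agent.helper440_quartic.RadP
import Pool.Agent.helper440_cubic2.Final

/-!
# All binary quartic forms: every exponent smaller than one half
-/

namespace Pool.Agent.helper440_quartic

open Pool.Agent.helper440_cubic2
open Pool.Agent.helper440_cubic (R R_le R_pos R_mono R_mul_le form form_ne_zero form_le)

/-- the last step: from points with a large power of `p` to the radical of `F K` -/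
theorem assemble (a b c d e : ℤ) (r : ℕ) (k : ℕ → ℤ) (hk : ∃ j ≤ r, k j ≠ 0) {p : ℕ} (hp : 2 ≤ p)
    {δ c₁ L E : ℝ} (hδ : 0 ≤ δ) (hc₁ : 1 ≤ c₁) (hL : 0 ≤ L) (hE : 1 ≤ E) (hEδ : E ^ δ ≤ p)
    (h : ∀ n : ℕ, ∃ x y : ℤ, IsCoprime x y ∧ F a b c d e x y ≠ 0 ∧
      (p : ℝ) ^ n * (R (F a b c d e x y).natAbs : ℝ) ≤ c₁ * ((max |x| |y| : ℤ) : ℝ) ^ 2 ∧
      Real.log ((max |x| |y| : ℤ) : ℝ) ≤ E ^ n * L) :
    ∃ C : ℝ, 0 < C ∧ ∀ B : ℝ, ∃ x y : ℤ, IsCoprime x y ∧ F a b c d e x y * form r k x y ≠ 0 ∧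
      B < ((max |x| |y| : ℤ) : ℝ) ∧
      (R (F a b c d e x y * form r k x y).natAbs : ℝ) * (Real.log ((max |x| |y| : ℤ) : ℝ)) ^ δ ≤
        C * ((max |x| |y| : ℤ) : ℝ) ^ (r + 2) := by
  obtain ⟨B₀, hB₀⟩ := form_ne_zero r k hk
  set A' : ℤ := 1 + ∑ j ∈ Finset.range (r + 1), |k j| with hA'
  have hA'1 : 1 ≤ A' := by
    have : 0 ≤ ∑ j ∈ Finset.range (r + 1), |k j| := Finset.sum_nonneg fun _ _ => abs_nonneg _
    linarith
  have hA'1r : (1 : ℝ) ≤ (A' : ℝ) := by exact_mod_cast hA'1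
  have hLδ : 0 ≤ L ^ δ := Real.rpow_nonneg hL δ
  refine ⟨c₁ * A' * L ^ δ + 1, by positivity, fun B => ?_⟩
  set B₁ : ℝ := max 1 (max B B₀) with hB₁
  have hB₁1 : 1 ≤ B₁ := le_max_left _ _
  obtain ⟨n, hn⟩ : ∃ n : ℕ, c₁ * B₁ ^ 2 < n := exists_nat_gt _
  have hn2 : c₁ * B₁ ^ 2 < (p : ℝ) ^ n := by
    have h1 : (n : ℝ) < 2 ^ n := by exact_mod_cast Nat.lt_two_pow_self
    have h2 : (2 : ℝ) ^ n ≤ (p : ℝ) ^ n := by
      have : (2 : ℝ) ≤ p := by exact_mod_cast hp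
      gcongr
    linarith
  obtain ⟨x, y, hxy, hF, hRr, hlog⟩ := h n
  set M : ℤ := max |x| |y| with hMd
  set m : ℤ := F a b c d e x y with hm
  have hM0 : 0 ≤ M := (abs_nonneg x).trans (le_max_left _ _)
  have hM0r : (0 : ℝ) ≤ (M : ℝ) := by exact_mod_cast hM0
  have hp0 : (0 : ℝ) < (p : ℝ) := by
    have : (2 : ℝ) ≤ p := by exact_mod_cast hp
    linarith
  have hR1 : (1 : ℝ) ≤ (R m.natAbs : ℝ) := by exact_mod_cast R_pos m.natAbs
  have hp2 : (0 : ℝ) < (p : ℝ) ^ n := by positivity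
  have hMbig : B₁ < (M : ℝ) := by
    have h1 : (p : ℝ) ^ n ≤ c₁ * (M : ℝ) ^ 2 := by
      refine le_trans ?_ hRr
      exact le_mul_of_one_le_right hp2.le hR1
    have h3 : c₁ * B₁ ^ 2 < c₁ * (M : ℝ) ^ 2 := lt_of_lt_of_le hn2 h1
    have h4 : B₁ ^ 2 < (M : ℝ) ^ 2 := lt_of_mul_lt_mul_left h3 (by linarith)
    exact lt_of_pow_lt_pow_left₀ 2 hM0r h4
  have hM1 : (1 : ℝ) < M := lt_of_le_of_lt hB₁1 hMbig
  have hMB : B < (M : ℝ) :=
    lt_of_le_of_lt ((le_max_left _ _).trans (le_max_right _ _)) hMbig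
  have hMB₀ : (B₀ : ℝ) < (M : ℝ) :=
    lt_of_le_of_lt ((le_max_right _ _).trans (le_max_right _ _)) hMbig
  have hform : form r k x y ≠ 0 := hB₀ x y hxy (by exact_mod_cast hMB₀)
  refine ⟨x, y, hxy, mul_ne_zero hF hform, hMB, ?_⟩
  have hlog0 : 0 ≤ Real.log (M : ℝ) := Real.log_nonneg hM1.le
  have hE0 : (0 : ℝ) ≤ E := by linarith
  have hsq : (Real.log (M : ℝ)) ^ δ ≤ (p : ℝ) ^ n * L ^ δ := by
    calc (Real.log (M : ℝ)) ^ δ ≤ (E ^ n * L) ^ δ := Real.rpow_le_rpow hlog0 hlog hδ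
      _ = (E ^ n) ^ δ * L ^ δ := Real.mul_rpow (by positivity) hL
      _ = (E ^ δ) ^ n * L ^ δ := by
          rw [← Real.rpow_natCast E n, ← Real.rpow_mul hE0, mul_comm (n : ℝ) δ,
            Real.rpow_mul hE0, Real.rpow_natCast]
      _ ≤ (p : ℝ) ^ n * L ^ δ := by
          have : 0 ≤ E ^ δ := Real.rpow_nonneg hE0 δ
          gcongr
  have hRprod : (R (m * form r k x y).natAbs : ℝ) ≤ (R m.natAbs : ℝ) * (A' * (M : ℝ) ^ r) := by
    have h1 : R (m * form r k x y).natAbs ≤ R m.natAbs * (form r k x y).natAbs := by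
      rw [Int.natAbs_mul]
      exact (R_mul_le _ _).trans (Nat.mul_le_mul_left _ (R_le (Int.natAbs_ne_zero.2 hform)))
    have h3 : ((form r k x y).natAbs : ℝ) ≤ A' * (M : ℝ) ^ r := by
      have h4 := form_le r k (le_max_left |x| |y|) (le_max_right |x| |y|)
      have h5 : |form r k x y| ≤ A' * M ^ r := by
        refine h4.trans ?_
        refine mul_le_mul_of_nonneg_right ?_ (by positivity)
        linarith
      have h6 : (((form r k x y).natAbs : ℤ) : ℝ) ≤ ((A' * M ^ r : ℤ) : ℝ) :=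
        Int.cast_le.2 (by rw [Int.natCast_natAbs]; exact h5)
      calc ((form r k x y).natAbs : ℝ) = (((form r k x y).natAbs : ℤ) : ℝ) :=
            (Int.cast_natCast _).symm
        _ ≤ ((A' * M ^ r : ℤ) : ℝ) := h6
        _ = A' * (M : ℝ) ^ r := by push_cast; ring
    calc (R (m * form r k x y).natAbs : ℝ) ≤ ((R m.natAbs * (form r k x y).natAbs : ℕ) : ℝ) := by
          exact_mod_cast h1
      _ = (R m.natAbs : ℝ) * ((form r k x y).natAbs : ℝ) := by push_cast; ring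
      _ ≤ _ := by gcongr
  have hA'0 : (0 : ℝ) ≤ A' := by linarith
  have hlδ : 0 ≤ (Real.log (M : ℝ)) ^ δ := Real.rpow_nonneg hlog0 δ
  calc (R (m * form r k x y).natAbs : ℝ) * (Real.log (M : ℝ)) ^ δ
      ≤ ((R m.natAbs : ℝ) * (A' * (M : ℝ) ^ r)) * ((p : ℝ) ^ n * L ^ δ) := by gcongr
    _ = ((p : ℝ) ^ n * (R m.natAbs : ℝ)) * (A' * L ^ δ * (M : ℝ) ^ r) := by ring
    _ ≤ (c₁ * (M : ℝ) ^ 2) * (A' * L ^ δ * (M : ℝ) ^ r) := by gcongr
    _ = (c₁ * A' * L ^ δ) * (M : ℝ) ^ (r + 2) := by ring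
    _ ≤ (c₁ * A' * L ^ δ + 1) * (M : ℝ) ^ (r + 2) := by
        refine mul_le_mul_of_nonneg_right ?_ (by positivity)
        linarith

/-- the prime `p` can be chosen so large that `(9 ^ k) ^ δ ≤ p` where `p + 2 ≤ 3 ^ k` -/
theorem exists_bound {δ : ℝ} (hδ : 0 ≤ δ) (hδ' : δ < 1 / 2) : ∃ N : ℕ, ∀ p : ℕ, N < p → 5 ≤ p →
    ∃ k : ℕ, p + 2 ≤ 3 ^ k ∧ ((9 : ℝ) ^ k) ^ δ ≤ p := by
  obtain ⟨N, hN⟩ := exists_nat_gt ((36 : ℝ) ^ (δ / (1 - 2 * δ)))
  refine ⟨N, fun p hp hp5 => ⟨Nat.log 3 (p + 2) + 1,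
    (Nat.lt_pow_succ_log_self (by norm_num) (p + 2)).le, ?_⟩⟩
  have h1 : 3 ^ Nat.log 3 (p + 2) ≤ p + 2 := Nat.pow_log_le_self 3 (by omega)
  have h1r : (3 : ℝ) ^ Nat.log 3 (p + 2) ≤ 2 * p := by
    have : 3 ^ Nat.log 3 (p + 2) ≤ 2 * p := by omega
    exact_mod_cast this
  have hpr : (0 : ℝ) < p := by
    have : 0 < p := by omega
    exact_mod_cast this
  have h2 : (9 : ℝ) ^ (Nat.log 3 (p + 2) + 1) ≤ 36 * (p : ℝ) ^ 2 := by
    have e : (9 : ℝ) ^ (Nat.log 3 (p + 2) + 1) = 9 * ((3 : ℝ) ^ Nat.log 3 (p + 2)) ^ 2 := by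
      have e4 : (9 : ℝ) ^ Nat.log 3 (p + 2) = ((3 : ℝ) ^ Nat.log 3 (p + 2)) ^ 2 := by
        rw [← pow_mul, mul_comm, pow_mul]; norm_num
      rw [pow_succ, e4]; ring
    rw [e]
    calc 9 * ((3 : ℝ) ^ Nat.log 3 (p + 2)) ^ 2 ≤ 9 * (2 * (p : ℝ)) ^ 2 := by gcongr
      _ = 36 * (p : ℝ) ^ 2 := by ring
  have hs : 0 < 1 - 2 * δ := by linarith
  have hq : (36 : ℝ) ^ (δ / (1 - 2 * δ)) ≤ p := by
    have : (N : ℝ) < p := by exact_mod_cast hp
    linarith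
  have h3 : (36 : ℝ) ^ δ ≤ (p : ℝ) ^ (1 - 2 * δ) := by
    have h4 := Real.rpow_le_rpow (by positivity) hq hs.le
    rw [← Real.rpow_mul (by norm_num), div_mul_cancel₀ _ hs.ne'] at h4
    exact h4
  calc ((9 : ℝ) ^ (Nat.log 3 (p + 2) + 1)) ^ δ ≤ (36 * (p : ℝ) ^ 2) ^ δ :=
        Real.rpow_le_rpow (by positivity) h2 hδ
    _ = (36 : ℝ) ^ δ * (p : ℝ) ^ (2 * δ) := by
        rw [Real.mul_rpow (by norm_num) (by positivity), ← Real.rpow_natCast (p : ℝ) 2,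
          ← Real.rpow_mul hpr.le]
        norm_num
    _ ≤ (p : ℝ) ^ (1 - 2 * δ) * (p : ℝ) ^ (2 * δ) := by
        have : 0 ≤ (p : ℝ) ^ (2 * δ) := by positivity
        gcongr
    _ = p := by
        rw [← Real.rpow_add hpr]
        have e : 1 - 2 * δ + 2 * δ = 1 := by ring
        rw [e, Real.rpow_one]

theorem general (a b c d e : ℤ) (hdisc : 4 * I2 a b c d e ^ 3 - J3 a b c d e ^ 2 ≠ 0) {δ : ℝ}
    (hδ : 0 ≤ δ) (hδ' : δ < 1 / 2) (r : ℕ) (k : ℕ → ℤ) (hk : ∃ j ≤ r, k j ≠ 0) :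
    ∃ C : ℝ, 0 < C ∧ ∀ B : ℝ, ∃ x y : ℤ, IsCoprime x y ∧ F a b c d e x y * form r k x y ≠ 0 ∧
      B < ((max |x| |y| : ℤ) : ℝ) ∧
      (R (F a b c d e x y * form r k x y).natAbs : ℝ) * (Real.log ((max |x| |y| : ℤ) : ℝ)) ^ δ ≤
        C * ((max |x| |y| : ℤ) : ℝ) ^ (r + 2) := by
  obtain ⟨N₁, hN₁⟩ := exists_bound hδ hδ'
  obtain ⟨Δ, hΔ⟩ : ∃ Δ : ℤ, Δ = 4 * I2 a b c d e ^ 3 - J3 a b c d e ^ 2 := ⟨_, rfl⟩
  obtain ⟨p, hp, hpN, n, hn⟩ := exists_prime hdisc (N₁ + 5 + Δ.natAbs)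
  have : Fact p.Prime := ⟨hp⟩
  have hp5 : 5 ≤ p := by omega
  have hpd : ¬ (p : ℤ) ∣ 4 * I2 a b c d e ^ 3 - J3 a b c d e ^ 2 := by
    intro h
    rw [← hΔ] at h hdisc
    have h1 := Nat.le_of_dvd (Int.natAbs_pos.2 hdisc) (Int.natCast_dvd.1 h)
    omega
  have hder := simple hpd hn
  obtain ⟨x₀, m, hx₀, hxm, hpm⟩ := exact_two hp hn hder
  obtain ⟨q, hq1, hq2⟩ := hN₁ p (by omega) hp5
  have hm0 : m ≠ 0 := by
    intro h0
    apply hpm
    rw [h0]; exact dvd_zero _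
  obtain ⟨K, hKb⟩ := exists_Bound (a := a) (b := b) (c := c) (d := d) (e := e) hm0
  have hK1 : 1 ≤ K := hKb.1
  have hpmp : ¬ (p : ℤ_[p]) ∣ (m : ℤ_[p]) := by rw [p_dvd_int_iff]; exact hpm
  have hderp : ¬ (p : ℤ_[p]) ∣ (4 * a * n ^ 3 + 3 * b * n ^ 2 + 2 * c * n + d : ℤ_[p]) := by
    intro h
    apply hder
    rw [← p_dvd_int_iff]
    push_cast
    exact h
  have small : ∀ j : ℤ, 0 < j → j < 5 → ¬ (p : ℤ_[p]) ∣ (j : ℤ_[p]) := by
    intro j hj0 hj5 h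
    rw [p_dvd_int_iff] at h
    have h1 := Int.le_of_dvd hj0 h
    have h2 : (5 : ℤ) ≤ p := by exact_mod_cast hp5
    linarith
  have hGood : Good p a b c d e m n K := by
    refine ⟨hpmp, hderp, ?_, ?_, hKb⟩
    · have := small 2 (by norm_num) (by norm_num)
      push_cast at this
      exact this
    · have := small 3 (by norm_num) (by norm_num)
      push_cast at this
      exact this
  -- the starting point `(x₀, 1, p)`
  set N : ℤ := K * (1 + |x₀|) with hN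
  have hN1 : 1 ≤ N := by
    have : 0 ≤ |x₀| := abs_nonneg _
    nlinarith
  have hPt : Pt p a b c d e m n K (3 * 1) (p : ℤ_[p]) N := by
    refine ⟨x₀, 1, p, ?_, one_ne_zero, ⟨x₀, p, by push_cast; ring, by push_cast; ring, ?_, ?_⟩,
      ?_, ?_⟩
    · unfold F; linear_combination hxm
    · have : ((x₀ : ℤ) : ℤ_[p]) - n = ((x₀ - n : ℤ) : ℤ_[p]) := by push_cast; ring
      rw [this, p_dvd_int_iff]; exact hx₀
    · rw [sub_self]; exact dvd_zero _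
    · rw [hN]
      refine mul_le_mul_of_nonneg_left ?_ (by linarith)
      linarith
    · rw [hN]
      refine mul_le_mul_of_nonneg_left ?_ (by linarith)
      have := abs_nonneg x₀
      rw [abs_one]; linarith
  have hpp : ¬ (p : ℤ_[p]) ^ (1 + 1) ∣ (p : ℤ_[p]) := by
    intro h
    have h1 : (p : ℤ_[p]) ^ 2 ∣ ((p : ℤ) : ℤ_[p]) := by push_cast; exact h
    rw [PadicInt.pow_p_dvd_int_iff] at h1
    have h2 : p ^ 2 ∣ p := by exact_mod_cast h1
    have h3 := Nat.le_of_dvd hp.pos h2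
    nlinarith
  set S : ℤ := 1 + (|a| + |b| + |c| + |d| + |e|) with hS
  have hS1 : 1 ≤ S := by
    have : 0 ≤ |a| + |b| + |c| + |d| + |e| := by positivity
    linarith
  have hm1 : (1 : ℝ) ≤ (m.natAbs : ℝ) := by
    have := Int.natAbs_pos.2 hm0
    exact_mod_cast this
  have hp1 : (1 : ℝ) ≤ p := by exact_mod_cast hp.one_le
  have hS1r : (1 : ℝ) ≤ (S : ℝ) := by exact_mod_cast hS1
  have hN1r : (1 : ℝ) ≤ (N : ℝ) := by exact_mod_cast hN1
  refine assemble a b c d e r k hk hp.two_le (δ := δ) (c₁ := m.natAbs * (p * S))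
    (L := Real.log N) (E := (9 : ℝ) ^ q) hδ ?_ (Real.log_nonneg hN1r)
    (one_le_pow₀ (by norm_num)) hq2 ?_
  · have h1 : (1 : ℝ) ≤ p * S := by nlinarith
    nlinarith
  · intro i
    obtain ⟨τ, h1, h2, h3⟩ := blocks hGood hp5 (le_refl 1) (by rw [pow_one]) hpp hPt hq1 i
    obtain ⟨x, y, ρ, hxy, hF, hρ, hd, hM⟩ := Pt.reduce h3 hK1 hm0 (by omega) h1 h2
    refine ⟨x, y, hxy, hF, ?_, ?_⟩
    · set M : ℤ := max |x| |y| with hMd
      have hM0 : 0 ≤ M := (abs_nonneg x).trans (le_max_left _ _)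
      have h5 : (0 : ℤ) ≤ S * M ^ 2 := by positivity
      have hmB : (F a b c d e x y).natAbs ≤ ((S * M ^ 2).toNat) ^ 2 := by
        have h1 := helper440_cubic.quartic_le a b c d e x y M (le_max_left _ _) (le_max_right _ _)
        have h3 : |F a b c d e x y| ≤ (S * M ^ 2) ^ 2 := by
          refine h1.trans ?_
          have e1 : (S * M ^ 2) ^ 2 = S ^ 2 * M ^ 4 := by ring
          rw [e1]
          refine mul_le_mul_of_nonneg_right ?_ (by positivity)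
          nlinarith
        zify
        rw [Int.toNat_of_nonneg h5]
        exact h3
      have hR := R_sq_p hp hF hm0 hρ ((pow_dvd_pow (p : ℤ) (by omega)).trans hd) hpm hmB
        (n := i)
      have h6 : ((p ^ i * R (F a b c d e x y).natAbs : ℕ) : ℝ) ≤
          ((m.natAbs * (p * (S * M ^ 2).toNat) : ℕ) : ℝ) := by exact_mod_cast hR
      push_cast at h6
      have h7 : (((S * M ^ 2).toNat : ℕ) : ℝ) = (S : ℝ) * (M : ℝ) ^ 2 := by
        have : (((S * M ^ 2).toNat : ℤ) : ℝ) = ((S * M ^ 2 : ℤ) : ℝ) := by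
          rw [Int.toNat_of_nonneg h5]
        push_cast at this
        exact_mod_cast this
      rw [h7] at h6
      calc (p : ℝ) ^ i * (R (F a b c d e x y).natAbs : ℝ)
          ≤ m.natAbs * (p * (S * (M : ℝ) ^ 2)) := h6
        _ = m.natAbs * (p * S) * (M : ℝ) ^ 2 := by ring
    · have hMr : ((max |x| |y| : ℤ) : ℝ) ≤ (N : ℝ) ^ ((9 ^ q) ^ i) := by exact_mod_cast hM
      have hM1 : (0 : ℝ) < ((max |x| |y| : ℤ) : ℝ) := by
        have h0 : 0 < max |x| |y| := by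
          by_contra h0
          have h0' : max |x| |y| ≤ 0 := not_lt.1 h0
          have hx : x = 0 := abs_eq_zero.1 (le_antisymm ((le_max_left _ _).trans h0') (abs_nonneg _))
          have hy : y = 0 := abs_eq_zero.1 (le_antisymm ((le_max_right _ _).trans h0') (abs_nonneg _))
          apply hF
          rw [hx, hy]; unfold F; ring
        exact_mod_cast h0
      have h8 := Real.log_le_log hM1 hMr
      rw [Real.log_pow] at h8
      push_cast at h8 ⊢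
      exact h8

end Pool.Agent.helper440_quartic
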