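import Pool.Agent.helper440_quartic.Core

/-!
# The `p`-adic analysis of `-(2 P + Q)` and `-3 P`
-/

namespace Pool.Agent.helper440_quartic

open Pool.Agent.helper440_cubic2

variable {p : ℕ} [Fact p.Prime] {a b c d e m n : ℤ}

theorem chord_padic {X₁ T₁ X₂ T₂ G₁ G₂ G₃ S ρ : ℤ_[p]}
    (h₁ : (a : ℤ_[p]) * X₁ ^ 4 + b * X₁ ^ 3 + c * X₁ ^ 2 + d * X₁ + e = m * T₁ ^ 2)
    (h₂ : (a : ℤ_[p]) * X₂ ^ 4 + b * X₂ ^ 3 + c * X₂ ^ 2 + d * X₂ + e = m * T₂ ^ 2)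
    (hn₁ : (p : ℤ_[p]) ∣ X₁ - n) (hn₂ : (p : ℤ_[p]) ∣ X₂ - n)
    (hder : ¬ (p : ℤ_[p]) ∣ (4 * a * n ^ 3 + 3 * b * n ^ 2 + 2 * c * n + d : ℤ_[p]))
    (hm : ¬ (p : ℤ_[p]) ∣ (m : ℤ_[p])) (h2 : ¬ (p : ℤ_[p]) ∣ 2) {s : ℕ} (hs : 1 ≤ s)
    (hT₁ : (p : ℤ_[p]) ^ s ∣ T₁) (hT₂ : (p : ℤ_[p]) ^ s ∣ T₂) (hne : T₁ ≠ T₂) (hT0 : T₁ ≠ 0)
    (hG₁ : G₁ = X₂ * (4 * a * X₁ ^ 3 + 3 * b * X₁ ^ 2 + 2 * c * X₁ + d) +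
      (b * X₁ ^ 3 + 2 * c * X₁ ^ 2 + 3 * d * X₁ + 4 * e))
    (hG₂ : G₂ = 6 * a * X₁ ^ 2 * X₂ ^ 2 + 3 * b * (X₁ ^ 2 * X₂ + X₁ * X₂ ^ 2) +
      c * (X₁ ^ 2 + 4 * X₁ * X₂ + X₂ ^ 2) + 3 * d * (X₂ + X₁) + 6 * e)
    (hG₃ : G₃ = X₁ * (4 * a * X₂ ^ 3 + 3 * b * X₂ ^ 2 + 2 * c * X₂ + d) +
      (b * X₂ ^ 3 + 2 * c * X₂ ^ 2 + 3 * d * X₂ + 4 * e))
    (hS : S = T₁ * G₃ - T₂ * G₁)
    (hρ : ρ = G₁ ^ 2 - 4 * m * T₁ ^ 2 * G₂ + 8 * m ^ 2 * T₁ ^ 3 * T₂) :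
    ∃ X₃ T₃ Y : ℤ_[p], Y ≠ 0 ∧ 4 * m * T₁ * S + ρ = Y ∧
      4 * m * T₁ * S * X₁ + ρ * X₂ = X₃ * Y ∧
      16 * m ^ 2 * T₁ ^ 3 * S ^ 2 + 2 * G₁ * S * ρ + T₂ * ρ ^ 2 = T₃ * Y ^ 2 ∧
      (p : ℤ_[p]) ∣ X₃ - n ∧ (p : ℤ_[p]) ^ (3 * s) ∣ T₃ + 2 * T₁ + T₂ := by
  obtain ⟨w, hw0⟩ : ∃ w : ℤ_[p], w = X₂ - X₁ := ⟨_, rfl⟩
  obtain ⟨τ, hτ⟩ : ∃ τ : ℤ_[p], τ = T₂ - T₁ := ⟨_, rfl⟩
  have hτ0 : τ ≠ 0 := by rw [hτ]; exact sub_ne_zero.2 (Ne.symm hne)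
  have hX : X₂ = X₁ + w := by rw [hw0]; ring
  have hT : T₂ = T₁ + τ := by rw [hτ]; ring
  obtain ⟨f₁, hf₁⟩ : ∃ f₁ : ℤ_[p], f₁ = 4 * a * X₁ ^ 3 + 3 * b * X₁ ^ 2 + 2 * c * X₁ + d := ⟨_, rfl⟩
  obtain ⟨f₂, hf₂⟩ : ∃ f₂ : ℤ_[p], f₂ = 6 * a * X₁ ^ 2 + 3 * b * X₁ + c := ⟨_, rfl⟩
  obtain ⟨f₃, hf₃⟩ : ∃ f₃ : ℤ_[p], f₃ = 4 * a * X₁ + b := ⟨_, rfl⟩
  obtain ⟨f₄, hf₄⟩ : ∃ f₄ : ℤ_[p], f₄ = (a : ℤ_[p]) := ⟨_, rfl⟩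
  have hG₁' : G₁ = 4 * m * T₁ ^ 2 + w * f₁ := by
    rw [hG₁, hX, hf₁]; linear_combination 4 * h₁
  have hG₂' : G₂ = 6 * m * T₁ ^ 2 + 3 * w * f₁ + w ^ 2 * f₂ := by
    rw [hG₂, hX, hf₁, hf₂]; linear_combination 6 * h₁
  have hG₃' : G₃ = 4 * m * T₁ ^ 2 + 3 * w * f₁ + 2 * w ^ 2 * f₂ + w ^ 3 * f₃ := by
    rw [hG₃, hX, hf₁, hf₂, hf₃]; linear_combination 4 * h₁
  have hpw : (p : ℤ_[p]) ∣ w := by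
    have e1 : w = (X₂ - n) - (X₁ - n) := by rw [hw0]; ring
    rw [e1]; exact dvd_sub hn₂ hn₁
  have hpT₁ : (p : ℤ_[p]) ∣ T₁ := (dvd_pow_self _ (by omega)).trans hT₁
  have hsig : (p : ℤ_[p]) ^ s ∣ 2 * T₁ + τ := by
    have e1 : 2 * T₁ + τ = T₁ + T₂ := by rw [hτ]; ring
    rw [e1]; exact dvd_add hT₁ hT₂
  have hpsig : (p : ℤ_[p]) ∣ 2 * T₁ + τ := (dvd_pow_self _ (by omega)).trans hsig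
  have hf₁u : ¬ (p : ℤ_[p]) ∣ f₁ := by
    refine not_dvd_of_sub hder ?_
    have e1 : f₁ - (4 * a * n ^ 3 + 3 * b * n ^ 2 + 2 * c * n + d) =
        (X₁ - n) * (4 * a * (X₁ ^ 2 + X₁ * n + n ^ 2) + 3 * b * (X₁ + n) + 2 * c) := by
      rw [hf₁]; ring
    rw [e1]; exact Dvd.dvd.mul_right hn₁ _
  obtain ⟨g, hg⟩ : ∃ g : ℤ_[p], g = f₁ + w * f₂ + w ^ 2 * f₃ + w ^ 3 * f₄ := ⟨_, rfl⟩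
  have hgu : ¬ (p : ℤ_[p]) ∣ g := by
    refine not_dvd_of_sub hf₁u ?_
    have e1 : g - f₁ = w * (f₂ + w * f₃ + w ^ 2 * f₄) := by rw [hg]; ring
    rw [e1]; exact Dvd.dvd.mul_right hpw _
  obtain ⟨gi, hgi⟩ := exists_inv hgu
  obtain ⟨μ, hμ⟩ : ∃ μ : ℤ_[p], μ = m * gi := ⟨_, rfl⟩
  have hmμ : (m : ℤ_[p]) = μ * g := by rw [hμ]; linear_combination (-(m : ℤ_[p])) * hgi
  have hwμ : w = μ * τ * (2 * T₁ + τ) := by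
    have h3 : w * g = m * τ * (2 * T₁ + τ) := by
      rw [hg, hf₁, hf₂, hf₃, hf₄]
      have h4 := h₂
      rw [hX, hT] at h4
      linear_combination h4 - h₁
    rw [hμ]
    linear_combination (-w) * hgi + gi * h3
  obtain ⟨A, hA⟩ : ∃ A : ℤ_[p], A = f₁ - 2 * μ * T₁ * (2 * T₁ + τ) * (f₂ + f₃ * w + f₄ * w ^ 2) := ⟨_, rfl⟩
  have hAu : ¬ (p : ℤ_[p]) ∣ A := by
    refine not_dvd_of_sub hf₁u ?_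
    have e1 : A - f₁ = T₁ * (-2 * μ * (2 * T₁ + τ) * (f₂ + f₃ * w + f₄ * w ^ 2)) := by
      rw [hA]; ring
    rw [e1]; exact Dvd.dvd.mul_right hpT₁ _
  obtain ⟨D, hD⟩ : ∃ D : ℤ_[p], D = A ^ 2 - 4 * m * μ ^ 2 * T₁ ^ 2 * (2 * T₁ + τ) ^ 4 * f₄ := ⟨_, rfl⟩
  have hDu : ¬ (p : ℤ_[p]) ∣ D := by
    have hA2 : ¬ (p : ℤ_[p]) ∣ A ^ 2 := fun h => hAu (PadicInt.prime_p.dvd_of_dvd_pow h)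
    refine not_dvd_of_sub hA2 ?_
    have e1 : D - A ^ 2 = T₁ * (-4 * m * μ ^ 2 * T₁ * (2 * T₁ + τ) ^ 4 * f₄) := by
      rw [hD]; ring
    rw [e1]; exact Dvd.dvd.mul_right hpT₁ _
  obtain ⟨ε, hε⟩ := exists_inv hDu
  have h2gu : ¬ (p : ℤ_[p]) ∣ 2 * g := by
    intro h
    rcases PadicInt.prime_p.dvd_or_dvd h with h | h
    · exact h2 h
    · exact hgu h
  obtain ⟨hi, hhi⟩ := exists_inv h2gu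
  have hb := coreb hwμ hg hA
  have hc1 := core1 hmμ hwμ hg hA hD
  have hc2 := core2 hmμ hwμ hg hA hD
  have hc3 := core3 (m := (m : ℤ_[p])) hwμ hg hA hD
  obtain ⟨V, hV⟩ : ∃ V : ℤ_[p], V = -τ * D + 2 * f₁ * A * (2 * T₁ + τ) +
        4 * m * μ * T₁ ^ 2 * (2 * T₁ + τ) ^ 3 * f₃ := ⟨_, rfl⟩
  obtain ⟨W, hW⟩ : ∃ W : ℤ_[p], W = -2 * g * A ^ 2 - 4 * m * μ * T₁ * (2 * T₁ + τ) ^ 3 *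
        (μ * (2 * T₁ + τ) * f₄ * (f₁ * (2 * T₁ + τ) + τ * A) + f₃ * A) := ⟨_, rfl⟩
  have hY : 4 * m * T₁ * S + ρ = μ ^ 2 * τ ^ 4 * D := by
    rw [hS, hρ, hG₁', hG₂', hG₃', hT]; exact hc1
  have hρ' : ρ = μ ^ 2 * τ ^ 3 * V := by
    rw [hρ, hG₁', hG₂', hT, hV]; exact hc2
  rw [← hV, ← hW] at hc3
  have hρv : τ * ρ = (V * ε) * (μ ^ 2 * τ ^ 4 * D) := by
    rw [hρ']; linear_combination (-(μ ^ 2 * τ ^ 4 * V)) * hε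
  have hμ0 : μ ≠ 0 := by
    intro h
    apply hm
    rw [hmμ, h, zero_mul]; exact dvd_zero _
  have hm0 : (m : ℤ_[p]) ≠ 0 := fun h => hm (by rw [h]; exact dvd_zero _)
  have h20 : (2 : ℤ_[p]) ≠ 0 := fun h => h2 (by rw [h]; exact dvd_zero _)
  have hD0 : D ≠ 0 := fun h => hDu (by rw [h]; exact dvd_zero _)
  obtain ⟨T₃, hT₃⟩ : ∃ T₃ : ℤ_[p], T₃ = T₁ + (V * ε) * (W * ε) * hi := ⟨_, rfl⟩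
  have hU : f₁ * (2 * T₁ + τ) - A * (V * ε) = T₁ * (W * ε) := by
    linear_combination (-(f₁ * (2 * T₁ + τ))) * hε + ε * hc3
  have hTT : 2 * g * T₃ = 2 * g * T₁ + (V * ε) * (W * ε) := by
    rw [hT₃]; linear_combination ((V * ε) * (W * ε)) * hhi
  have hz := core4 hmμ hwμ hG₁' hY hρv hU hb hTT
  refine ⟨X₁ + μ * (2 * T₁ + τ) * (V * ε), T₃, μ ^ 2 * τ ^ 4 * D,
    mul_ne_zero (mul_ne_zero (pow_ne_zero 2 hμ0) (pow_ne_zero 4 hτ0)) hD0, hY, ?_, ?_, ?_, ?_⟩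
  · rw [hX]
    have h3 : w * ρ = μ * (2 * T₁ + τ) * (τ * ρ) := by
      calc w * ρ = (μ * τ * (2 * T₁ + τ)) * ρ := by rw [← hwμ]
        _ = _ := by ring
    linear_combination X₁ * hY + h3 + (μ * (2 * T₁ + τ)) * hρv
  · rw [hT]
    have hne0 : (2 * m * T₁ * τ ^ 2 : ℤ_[p]) ≠ 0 :=
      mul_ne_zero (mul_ne_zero (mul_ne_zero h20 hm0) hT0) (pow_ne_zero 2 hτ0)
    exact mul_left_cancel₀ hne0 hz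
  · have e1 : X₁ + μ * (2 * T₁ + τ) * (V * ε) - n =
        (X₁ - n) + (2 * T₁ + τ) * (μ * (V * ε)) := by ring
    rw [e1]
    exact dvd_add hn₁ (Dvd.dvd.mul_right hpsig _)
  · have e1 : T₃ + 2 * T₁ + T₂ = (V * ε) * hi * ε * (W + 2 * g * D) -
        ε * (V + τ * D - 2 * (2 * T₁ + τ) * D) := by
      rw [hT₃, hT]
      linear_combination (-(V * ε)) * hhi + (-2 * g * (V * ε) * hi) * hε +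
        (τ - 2 * (2 * T₁ + τ)) * hε
    have e2 : W + 2 * g * D = (T₁ * ((2 * T₁ + τ) * (2 * T₁ + τ))) * ((2 * T₁ + τ) *
        (-8 * g * m * μ ^ 2 * T₁ * (2 * T₁ + τ) * f₄ - 4 * m * μ *
          (μ * (2 * T₁ + τ) * f₄ * (f₁ * (2 * T₁ + τ) + τ * A) + f₃ * A))) := by
      rw [hW, hD]; ring
    have e3 : V + τ * D - 2 * (2 * T₁ + τ) * D = (T₁ * ((2 * T₁ + τ) * (2 * T₁ + τ))) *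
        (4 * μ * (f₂ + f₃ * w + f₄ * w ^ 2) * A + 8 * m * μ ^ 2 * T₁ * (2 * T₁ + τ) ^ 3 * f₄ +
          4 * m * μ * T₁ * (2 * T₁ + τ) * f₃) := by
      have e4 : V + τ * D - 2 * (2 * T₁ + τ) * D = 2 * (2 * T₁ + τ) * (A * (f₁ - A) +
          4 * m * μ ^ 2 * T₁ ^ 2 * (2 * T₁ + τ) ^ 4 * f₄ +
          2 * m * μ * T₁ ^ 2 * (2 * T₁ + τ) ^ 2 * f₃) := by
        rw [hV, hD]; ring
      have e5 : f₁ - A = 2 * μ * T₁ * (2 * T₁ + τ) * (f₂ + f₃ * w + f₄ * w ^ 2) := by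
        rw [hA]; ring
      rw [e4, e5]; ring
    have h3s : (p : ℤ_[p]) ^ (3 * s) ∣ T₁ * ((2 * T₁ + τ) * (2 * T₁ + τ)) := by
      have e6 : (p : ℤ_[p]) ^ (3 * s) = p ^ s * (p ^ s * p ^ s) := by
        rw [← pow_add, ← pow_add]; congr 1; ring
      rw [e6]
      exact mul_dvd_mul hT₁ (mul_dvd_mul hsig hsig)
    rw [e1, e2, e3]
    exact dvd_sub (Dvd.dvd.mul_left (Dvd.dvd.mul_right h3s _) _)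
      (Dvd.dvd.mul_left (Dvd.dvd.mul_right h3s _) _)

/-- the tripling -/
theorem triple_padic {T₁ f₀ f₁ f₂ f₃ i H₁ C s₁ κ : ℤ_[p]}
    (hf₀ : f₀ = m * T₁ ^ 2) (hf₁ : ¬ (p : ℤ_[p]) ∣ f₁) (h3 : ¬ (p : ℤ_[p]) ∣ 3)
    (hH₁ : H₁ = 8 * f₀ * f₂ - 3 * f₁ ^ 2)
    (hC : C = -(f₁ ^ 3 - 4 * f₀ * f₁ * f₂ + 8 * f₀ ^ 2 * f₃))
    (hs₁ : s₁ = H₁ ^ 2 - 16 * i * f₀ ^ 2) (hκ : κ = s₁ + 6 * C * f₁) {s : ℕ} (hs : 1 ≤ s)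
    (hT₁ : (p : ℤ_[p]) ^ s ∣ T₁) :
    ∃ ε : ℤ_[p], κ * ε = 1 ∧ (p : ℤ_[p]) ∣ f₀ ∧
      (p : ℤ_[p]) ^ (3 * s) ∣ T₁ * (s₁ ^ 2 + 36 * H₁ * C ^ 2) * ε ^ 2 + 3 * T₁ := by
  have hT : (p : ℤ_[p]) ∣ T₁ := (dvd_pow_self _ (by omega)).trans hT₁
  have hpf₀ : (p : ℤ_[p]) ∣ f₀ := by
    rw [hf₀]; exact Dvd.dvd.mul_left (Dvd.dvd.pow hT (by norm_num)) _
  have h4 : ¬ (p : ℤ_[p]) ∣ 3 * f₁ ^ 4 := by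
    intro h
    rcases PadicInt.prime_p.dvd_or_dvd h with h | h
    · exact h3 h
    · exact hf₁ (PadicInt.prime_p.dvd_of_dvd_pow h)
  have hκ' : κ - 3 * f₁ ^ 4 = f₀ * (64 * f₀ * f₂ ^ 2 - 48 * f₁ ^ 2 * f₂ - 16 * i * f₀ +
      6 * f₁ * (4 * f₁ * f₂ - 8 * f₀ * f₃)) := by
    rw [hκ, hs₁, hC, hH₁]; ring
  have hκu : ¬ (p : ℤ_[p]) ∣ κ := by
    refine not_dvd_of_sub h4 ?_
    rw [hκ']; exact Dvd.dvd.mul_right hpf₀ _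
  obtain ⟨ε, hε⟩ := exists_inv hκu
  refine ⟨ε, hε, hpf₀, ?_⟩
  obtain ⟨α, hα⟩ : ∃ α : ℤ_[p], α = 64 * f₀ * f₂ ^ 2 - 48 * f₁ ^ 2 * f₂ - 16 * i * f₀ :=
    ⟨_, rfl⟩
  obtain ⟨β, hβ⟩ : ∃ β : ℤ_[p], β = 4 * f₁ * f₂ - 8 * f₀ * f₃ := ⟨_, rfl⟩
  have e1 : s₁ = 9 * f₁ ^ 4 + f₀ * α := by rw [hs₁, hH₁, hα]; ring
  have e2 : C = -f₁ ^ 3 + f₀ * β := by rw [hC, hβ]; ring
  have e3 : κ = 3 * f₁ ^ 4 + f₀ * (α + 6 * f₁ * β) := by rw [hα, hβ]; linear_combination hκ'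
  have e4 : s₁ ^ 2 + 36 * H₁ * C ^ 2 + 3 * κ ^ 2 = f₀ * (18 * f₁ ^ 4 * α + f₀ * α ^ 2 +
      36 * (8 * f₂ * (-f₁ ^ 3 + f₀ * β) ^ 2 - 3 * f₁ ^ 2 * (-2 * f₁ ^ 3 * β + f₀ * β ^ 2)) +
      3 * (6 * f₁ ^ 4 * (α + 6 * f₁ * β) + f₀ * (α + 6 * f₁ * β) ^ 2)) := by
    rw [e1, e2, e3, hH₁]; ring
  have e5 : T₁ * (s₁ ^ 2 + 36 * H₁ * C ^ 2) * ε ^ 2 + 3 * T₁ =
      T₁ * ε ^ 2 * (s₁ ^ 2 + 36 * H₁ * C ^ 2 + 3 * κ ^ 2) := by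
    linear_combination (-3 * T₁ * (κ * ε + 1)) * hε
  have h3s : (p : ℤ_[p]) ^ (3 * s) ∣ T₁ * f₀ := by
    have e6 : T₁ * f₀ = T₁ ^ 3 * m := by rw [hf₀]; ring
    have e7 : (p : ℤ_[p]) ^ (3 * s) = (p ^ s) ^ 3 := by rw [← pow_mul]; congr 1; ring
    rw [e6, e7]
    exact Dvd.dvd.mul_right (pow_dvd_pow_of_dvd hT₁ 3) _
  rw [e5, e4]
  have e8 : ∀ q : ℤ_[p], T₁ * ε ^ 2 * (f₀ * q) = (T₁ * f₀) * (ε ^ 2 * q) := by intro q; ring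
  rw [e8]
  exact Dvd.dvd.mul_right h3s _

end Pool.Agent.helper440_quartic
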